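import Pool.Agent.H561R2.RO.Defs

/-!
# Cutting accepted computations of decomposable circuits into pieces
-/

namespace Pool.Agent.H561R2.RO

open Finset

variable {Λ A : Type} [DecidableEq Λ] {S : ℕ}

/-- A certificate of acceptance with the set of positions it reads. -/
inductive Circ.Cert (C : Circ Λ A S) (a : Λ → A) : Fin S → Finset Λ → Prop
  | leaf {g : Fin S} {B : Finset Λ} {φ : (Λ → A) → Bool} :
      C.gate g = .leaf B φ → φ a = true → C.Cert a g B
  | and {g i j : Fin S} {L L' : Finset Λ} :
      C.gate g = .and i j → C.Cert a i L → C.Cert a j L' → C.Cert a g (L ∪ L')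
  | left {g i j : Fin S} {L : Finset Λ} : C.gate g = .or i j → C.Cert a i L → C.Cert a g L
  | right {g i j : Fin S} {L : Finset Λ} : C.gate g = .or i j → C.Cert a j L → C.Cert a g L
  | dec {g : Fin S} {v : Λ} {ch : A → Fin S} {L : Finset Λ} :
      C.gate g = .dec v ch → C.Cert a (ch (a v)) L → C.Cert a g (insert v L)

variable {C : Circ Λ A S}

theorem Circ.ok_and {C : Circ Λ A S} {g i j : Fin S} (h : C.gate g = .and i j) :
    i < g ∧ j < g ∧ C.scope i ⊆ C.scope g ∧ C.scope j ⊆ C.scope g ∧
      Disjoint (C.scope i) (C.scope j) := by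
  have := C.ok g
  rw [h] at this
  exact this

theorem Circ.ok_or {C : Circ Λ A S} {g i j : Fin S} (h : C.gate g = .or i j) :
    i < g ∧ j < g ∧ C.scope i ⊆ C.scope g ∧ C.scope j ⊆ C.scope g := by
  have := C.ok g
  rw [h] at this
  exact this

theorem Circ.ok_dec {C : Circ Λ A S} {g : Fin S} {v : Λ} {ch : A → Fin S}
    (h : C.gate g = .dec v ch) :
    v ∈ C.scope g ∧ ∀ c, ch c < g ∧ C.scope (ch c) ⊆ C.scope g ∧ v ∉ C.scope (ch c) := by
  have := C.ok g
  rw [h] at this
  exact this

theorem Circ.ok_leaf {C : Circ Λ A S} {g : Fin S} {B : Finset Λ} {φ : (Λ → A) → Bool}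
    (h : C.gate g = .leaf B φ) :
    B ⊆ C.scope g ∧ ∀ a a' : Λ → A, (∀ v ∈ B, a v = a' v) → φ a = φ a' := by
  have := C.ok g
  rw [h] at this
  exact this

theorem Circ.Cert.acc {a : Λ → A} {g : Fin S} {L : Finset Λ} (h : C.Cert a g L) : C.Acc a g := by
  induction h with
  | leaf h1 h2 => exact .leaf h1 h2
  | and h1 _ _ i1 i2 => exact .and h1 i1 i2
  | left h1 _ i1 => exact .left h1 i1
  | right h1 _ i1 => exact .right h1 i1
  | dec h1 _ i1 => exact .dec h1 i1

theorem Circ.Acc.cert {a : Λ → A} {g : Fin S} (h : C.Acc a g) : ∃ L, C.Cert a g L := by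
  induction h with
  | leaf h1 h2 => exact ⟨_, .leaf h1 h2⟩
  | and h1 _ _ i1 i2 =>
    obtain ⟨L, hL⟩ := i1
    obtain ⟨L', hL'⟩ := i2
    exact ⟨_, .and h1 hL hL'⟩
  | left h1 _ i1 =>
    obtain ⟨L, hL⟩ := i1
    exact ⟨_, .left h1 hL⟩
  | right h1 _ i1 =>
    obtain ⟨L, hL⟩ := i1
    exact ⟨_, .right h1 hL⟩
  | dec h1 _ i1 =>
    obtain ⟨L, hL⟩ := i1
    exact ⟨_, .dec h1 hL⟩

theorem Circ.Cert.sub {a : Λ → A} {g : Fin S} {L : Finset Λ} (h : C.Cert a g L) :
    L ⊆ C.scope g := by
  induction h with
  | leaf h1 h2 => exact (Circ.ok_leaf h1).1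
  | and h1 _ _ i1 i2 =>
    obtain ⟨-, -, h3, h4, -⟩ := Circ.ok_and h1
    exact Finset.union_subset (i1.trans h3) (i2.trans h4)
  | left h1 _ i1 =>
    obtain ⟨-, -, h3, h4⟩ := Circ.ok_or h1
    exact i1.trans h3
  | right h1 _ i1 =>
    obtain ⟨-, -, h3, h4⟩ := Circ.ok_or h1
    exact i1.trans h4
  | dec h1 _ i1 =>
    obtain ⟨h2, h3⟩ := Circ.ok_dec h1
    exact Finset.insert_subset h2 (i1.trans (h3 _).2.1)

theorem Circ.Cert.congr {a a' : Λ → A} {g : Fin S} {L : Finset Λ} (h : C.Cert a g L)
    (haa : ∀ v ∈ L, a v = a' v) : C.Cert a' g L := by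
  induction h with
  | leaf h1 h2 => exact .leaf h1 (by rw [← (Circ.ok_leaf h1).2 a a' haa]; exact h2)
  | and h1 _ _ i1 i2 =>
    exact .and h1 (i1 fun v hv => haa v (Finset.mem_union_left _ hv))
      (i2 fun v hv => haa v (Finset.mem_union_right _ hv))
  | left h1 _ i1 => exact .left h1 (i1 haa)
  | right h1 _ i1 => exact .right h1 (i1 haa)
  | @dec g v ch L h1 _ i1 =>
    refine .dec h1 ?_
    rw [← haa v (Finset.mem_insert_self _ _)]
    exact i1 fun u hu => haa u (Finset.mem_insert_of_mem hu)

theorem Circ.Acc.congr {a a' : Λ → A} {g : Fin S} (h : C.Acc a g)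
    (haa : ∀ v ∈ C.scope g, a v = a' v) : C.Acc a' g := by
  obtain ⟨L, hL⟩ := h.cert
  exact (hL.congr fun v hv => haa v (hL.sub hv)).acc

/-- Removing the positions in `U` from a gate. -/
def Gate.cut (U : Finset Λ) : Gate Λ A S → Gate Λ A S
  | .leaf B φ => if Disjoint B U then .leaf B φ else .leaf ∅ fun _ => false
  | .and i j => .and i j
  | .or i j => .or i j
  | .dec v ch => if v ∈ U then .leaf ∅ fun _ => false else .dec v ch

/-- The circuit in which gate `h` is replaced by the constant 1, and all other gates which read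
positions in the scope of `h` by the constant 0. -/
def Circ.cut (C : Circ Λ A S) (h : Fin S) : Circ Λ A S where
  gate g := if g = h then .leaf ∅ (fun _ => true) else (C.gate g).cut (C.scope h)
  scope g := C.scope g \ C.scope h
  ok := by
    intro g
    by_cases hg : g = h
    · rw [if_pos hg]
      exact ⟨Finset.empty_subset _, fun _ _ _ => rfl⟩
    · rw [if_neg hg]
      have hok := C.ok g
      cases hG : C.gate g with
      | leaf B φ =>
        rw [hG] at hok
        simp only [Gate.cut]
        by_cases hB : Disjoint B (C.scope h)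
        · rw [if_pos hB]
          exact ⟨fun v hv => Finset.mem_sdiff.2 ⟨hok.1 hv, Finset.disjoint_left.1 hB hv⟩, hok.2⟩
        · rw [if_neg hB]
          exact ⟨Finset.empty_subset _, fun _ _ _ => rfl⟩
      | and i j =>
        rw [hG] at hok
        obtain ⟨h1, h2, h3, h4, h5⟩ := hok
        exact ⟨h1, h2, Finset.sdiff_subset_sdiff h3 subset_rfl,
          Finset.sdiff_subset_sdiff h4 subset_rfl,
          Finset.disjoint_of_subset_left Finset.sdiff_subset
            (Finset.disjoint_of_subset_right Finset.sdiff_subset h5)⟩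
      | or i j =>
        rw [hG] at hok
        obtain ⟨h1, h2, h3, h4⟩ := hok
        exact ⟨h1, h2, Finset.sdiff_subset_sdiff h3 subset_rfl,
          Finset.sdiff_subset_sdiff h4 subset_rfl⟩
      | dec v ch =>
        rw [hG] at hok
        simp only [Gate.cut]
        by_cases hv : v ∈ C.scope h
        · rw [if_pos hv]
          exact ⟨Finset.empty_subset _, fun _ _ _ => rfl⟩
        · rw [if_neg hv]
          refine ⟨Finset.mem_sdiff.2 ⟨hok.1, hv⟩, fun c => ?_⟩
          obtain ⟨h1, h2, h3⟩ := hok.2 c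
          exact ⟨h1, Finset.sdiff_subset_sdiff h2 subset_rfl,
            fun h4 => h3 (Finset.mem_sdiff.1 h4).1⟩

theorem Circ.cut_gate_self (C : Circ Λ A S) (h : Fin S) :
    (C.cut h).gate h = .leaf ∅ (fun _ => true) := if_pos rfl

theorem Circ.cut_gate_ne (C : Circ Λ A S) {g h : Fin S} (hg : g ≠ h) :
    (C.cut h).gate g = (C.gate g).cut (C.scope h) := if_neg hg

theorem Circ.cut_leafLE {b : ℕ} (hC : C.LeafLE b) (h : Fin S) : (C.cut h).LeafLE b := by
  intro g B φ hg
  by_cases hgh : g = h
  · subst hgh
    rw [Circ.cut_gate_self] at hg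
    cases hg
    simp
  · rw [Circ.cut_gate_ne _ hgh] at hg
    cases hG : C.gate g with
    | leaf B' φ' =>
      rw [hG] at hg
      simp only [Gate.cut] at hg
      split_ifs at hg with h1
      · cases hg
        exact hC g _ _ hG
      · cases hg
        simp
    | and i j => rw [hG] at hg; simp [Gate.cut] at hg
    | or i j => rw [hG] at hg; simp [Gate.cut] at hg
    | dec v ch =>
      rw [hG] at hg
      simp only [Gate.cut] at hg
      split_ifs at hg with h1
      · cases hg
        simp

/-- Certificates which avoid the scope of `h` survive. -/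
theorem Circ.Cert.avoid {a : Λ → A} {g h : Fin S} {L : Finset Λ} (hc : C.Cert a g L)
    (hne : (C.scope h).Nonempty) (hd : Disjoint (C.scope g) (C.scope h)) :
    (C.cut h).Cert a g L := by
  have hgh : ∀ g', Disjoint (C.scope g') (C.scope h) → g' ≠ h := by
    rintro g' hd' rfl
    rw [Finset.disjoint_self_iff_empty] at hd'
    exact hne.ne_empty hd'
  induction hc with
  | @leaf g B φ h1 h2 =>
    refine .leaf (B := B) (φ := φ) ?_ h2
    rw [Circ.cut_gate_ne _ (hgh _ hd), h1]
    simp only [Gate.cut]
    rw [if_pos (Finset.disjoint_of_subset_left (Circ.ok_leaf h1).1 hd)]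
  | @and g i j L L' h1 _ _ i1 i2 =>
    obtain ⟨-, -, h3, h4, -⟩ := Circ.ok_and h1
    refine .and (i := i) (j := j) ?_ (i1 (Finset.disjoint_of_subset_left h3 hd))
      (i2 (Finset.disjoint_of_subset_left h4 hd))
    rw [Circ.cut_gate_ne _ (hgh _ hd), h1]
    rfl
  | @left g i j L h1 _ i1 =>
    obtain ⟨-, -, h3, h4⟩ := Circ.ok_or h1
    refine .left (i := i) (j := j) ?_ (i1 (Finset.disjoint_of_subset_left h3 hd))
    rw [Circ.cut_gate_ne _ (hgh _ hd), h1]
    rfl
  | @right g i j L h1 _ i1 =>
    obtain ⟨-, -, h3, h4⟩ := Circ.ok_or h1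
    refine .right (i := i) (j := j) ?_ (i1 (Finset.disjoint_of_subset_left h4 hd))
    rw [Circ.cut_gate_ne _ (hgh _ hd), h1]
    rfl
  | @dec g v ch L h1 _ i1 =>
    obtain ⟨h2, h3⟩ := Circ.ok_dec h1
    refine .dec (v := v) (ch := ch) ?_ (i1 (Finset.disjoint_of_subset_left (h3 _).2.1 hd))
    rw [Circ.cut_gate_ne _ (hgh _ hd), h1]
    simp only [Gate.cut]
    rw [if_neg (Finset.disjoint_left.1 hd h2)]

/-- **One cut.** A certificate which reads many positions has a piece which reads between `w` and
`2 w` positions. -/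
theorem Circ.Cert.exists_cut {a : Λ → A} {g : Fin S} {L : Finset Λ} (hc : C.Cert a g L) {w : ℕ}
    (hw : 1 ≤ w) (hleaf : C.LeafLE (2 * w)) (hL : w < L.card) :
    ∃ h L', h ≤ g ∧ C.scope h ⊆ C.scope g ∧ C.Cert a h L' ∧ w < L'.card ∧ L'.card ≤ 2 * w ∧
      L' ⊆ L ∧ (C.cut h).Cert a g (L \ L') := by
  induction hc with
  | @leaf g B φ h1 h2 =>
    refine ⟨g, B, le_rfl, subset_rfl, .leaf h1 h2, hL, hleaf _ _ _ h1, subset_rfl, ?_⟩
    rw [Finset.sdiff_self]
    exact .leaf (Circ.cut_gate_self C g) rfl
  | @and g i j L L' h1 c1 c2 i1 i2 =>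
    by_cases hsmall : (L ∪ L').card ≤ 2 * w
    · refine ⟨g, L ∪ L', le_rfl, subset_rfl, .and h1 c1 c2, hL, hsmall, subset_rfl, ?_⟩
      rw [Finset.sdiff_self]
      exact .leaf (Circ.cut_gate_self C g) rfl
    · obtain ⟨o1, o2, o3, o4, o5⟩ := Circ.ok_and h1
      have hle := Finset.card_union_le L L'
      have s1 := c1.sub
      have s2 := c2.sub
      by_cases hbig : w < L.card
      · obtain ⟨h, K, k1, k2, k3, k4, k5, k6, k7⟩ := i1 hbig
        have hKne : (C.scope h).Nonempty := by
          have : K.Nonempty := Finset.card_pos.1 (by omega)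
          exact this.mono k3.sub
        have hav := c2.avoid (h := h) hKne
          (Finset.disjoint_of_subset_right k2 o5.symm)
        have hgh : g ≠ h := by
          rintro rfl
          exact absurd (lt_of_le_of_lt k1 o1) (lt_irrefl _)
        refine ⟨h, K, k1.trans o1.le, k2.trans o3, k3, k4, k5,
          k6.trans Finset.subset_union_left, ?_⟩
        have hKL' : Disjoint L' K :=
          Finset.disjoint_of_subset_left s2
            (Finset.disjoint_of_subset_right (k3.sub.trans k2) o5.symm)
        have e : (L ∪ L') \ K = (L \ K) ∪ L' := by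
          rw [Finset.union_sdiff_distrib, Finset.sdiff_eq_self_of_disjoint hKL']
        rw [e]
        refine .and (i := i) (j := j) ?_ k7 hav
        rw [Circ.cut_gate_ne _ hgh, h1]
        rfl
      · have hbig' : w < L'.card := by omega
        obtain ⟨h, K, k1, k2, k3, k4, k5, k6, k7⟩ := i2 hbig'
        have hKne : (C.scope h).Nonempty := by
          have : K.Nonempty := Finset.card_pos.1 (by omega)
          exact this.mono k3.sub
        have hav := c1.avoid (h := h) hKne
          (Finset.disjoint_of_subset_right k2 o5)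
        have hgh : g ≠ h := by
          rintro rfl
          exact absurd (lt_of_le_of_lt k1 o2) (lt_irrefl _)
        refine ⟨h, K, k1.trans o2.le, k2.trans o4, k3, k4, k5,
          k6.trans Finset.subset_union_right, ?_⟩
        have hKL : Disjoint L K :=
          Finset.disjoint_of_subset_left s1
            (Finset.disjoint_of_subset_right (k3.sub.trans k2) o5)
        have e : (L ∪ L') \ K = L ∪ (L' \ K) := by
          rw [Finset.union_sdiff_distrib, Finset.sdiff_eq_self_of_disjoint hKL]
        rw [e]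
        refine .and (i := i) (j := j) ?_ hav k7
        rw [Circ.cut_gate_ne _ hgh, h1]
        rfl
  | @left g i j L h1 c1 i1 =>
    obtain ⟨o1, o2, o3, o4⟩ := Circ.ok_or h1
    obtain ⟨h, K, k1, k2, k3, k4, k5, k6, k7⟩ := i1 hL
    have hgh : g ≠ h := by
      rintro rfl
      exact absurd (lt_of_le_of_lt k1 o1) (lt_irrefl _)
    refine ⟨h, K, k1.trans o1.le, k2.trans o3, k3, k4, k5, k6, ?_⟩
    refine .left (i := i) (j := j) ?_ k7
    rw [Circ.cut_gate_ne _ hgh, h1]
    rfl
  | @right g i j L h1 c1 i1 =>
    obtain ⟨o1, o2, o3, o4⟩ := Circ.ok_or h1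
    obtain ⟨h, K, k1, k2, k3, k4, k5, k6, k7⟩ := i1 hL
    have hgh : g ≠ h := by
      rintro rfl
      exact absurd (lt_of_le_of_lt k1 o2) (lt_irrefl _)
    refine ⟨h, K, k1.trans o2.le, k2.trans o4, k3, k4, k5, k6, ?_⟩
    refine .right (i := i) (j := j) ?_ k7
    rw [Circ.cut_gate_ne _ hgh, h1]
    rfl
  | @dec g v ch L h1 c1 i1 =>
    by_cases hsmall : (insert v L).card ≤ 2 * w
    · refine ⟨g, insert v L, le_rfl, subset_rfl, .dec h1 c1, hL, hsmall, subset_rfl, ?_⟩
      rw [Finset.sdiff_self]
      exact .leaf (Circ.cut_gate_self C g) rfl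
    · obtain ⟨o1, o2⟩ := Circ.ok_dec h1
      obtain ⟨o3, o4, o5⟩ := o2 (a v)
      have hle := Finset.card_insert_le v L
      obtain ⟨h, K, k1, k2, k3, k4, k5, k6, k7⟩ := i1 (by omega)
      have hgh : g ≠ h := by
        rintro rfl
        exact absurd (lt_of_le_of_lt k1 o3) (lt_irrefl _)
      refine ⟨h, K, k1.trans o3.le, k2.trans o4, k3, k4, k5,
        k6.trans (Finset.subset_insert _ _), ?_⟩
      have hvh : v ∉ C.scope h := fun hv => o5 (k2 hv)
      have hvK : v ∉ K := fun hv => hvh (k3.sub hv)
      rw [Finset.insert_sdiff_of_notMem _ hvK]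
      refine .dec (v := v) (ch := ch) ?_ k7
      rw [Circ.cut_gate_ne _ hgh, h1]
      simp only [Gate.cut]
      rw [if_neg hvh]

/-- **Gluing.** -/
theorem Circ.Acc.glue {a b : Λ → A} {g h : Fin S} (ha : C.Acc a h) (hb : (C.cut h).Acc b g) :
    C.Acc (fun v => if v ∈ C.scope h then a v else b v) g := by
  have hself : C.Acc (fun v => if v ∈ C.scope h then a v else b v) h :=
    ha.congr fun v hv => by rw [if_pos hv]
  induction hb with
  | @leaf g B φ h1 h2 =>
    by_cases hgh : g = h
    · subst hgh; exact hself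
    · rw [Circ.cut_gate_ne _ hgh] at h1
      cases hG : C.gate g with
      | leaf B' φ' =>
        rw [hG] at h1
        simp only [Gate.cut] at h1
        split_ifs at h1 with hB
        · cases h1
          refine .leaf hG ?_
          rw [← h2]
          refine (Circ.ok_leaf hG).2 _ _ fun v hv => ?_
          rw [if_neg (Finset.disjoint_left.1 hB hv)]
        · cases h1
          simp at h2
      | and i j => rw [hG] at h1; simp [Gate.cut] at h1
      | or i j => rw [hG] at h1; simp [Gate.cut] at h1
      | dec v ch =>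
        rw [hG] at h1
        simp only [Gate.cut] at h1
        split_ifs at h1 with hB
        · cases h1
          simp at h2
  | @and g i j h1 _ _ i1 i2 =>
    by_cases hgh : g = h
    · subst hgh; exact hself
    · rw [Circ.cut_gate_ne _ hgh] at h1
      cases hG : C.gate g with
      | leaf B' φ' => rw [hG] at h1; simp only [Gate.cut] at h1; split_ifs at h1
      | and i j =>
        rw [hG] at h1
        simp only [Gate.cut] at h1
        cases h1
        exact .and hG i1 i2
      | or i j => rw [hG] at h1; simp [Gate.cut] at h1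
      | dec v ch => rw [hG] at h1; simp only [Gate.cut] at h1; split_ifs at h1
  | @left g i j h1 _ i1 =>
    by_cases hgh : g = h
    · subst hgh; exact hself
    · rw [Circ.cut_gate_ne _ hgh] at h1
      cases hG : C.gate g with
      | leaf B' φ' => rw [hG] at h1; simp only [Gate.cut] at h1; split_ifs at h1
      | and i j => rw [hG] at h1; simp [Gate.cut] at h1
      | or i j =>
        rw [hG] at h1
        simp only [Gate.cut] at h1
        cases h1
        exact .left hG i1
      | dec v ch => rw [hG] at h1; simp only [Gate.cut] at h1; split_ifs at h1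
  | @right g i j h1 _ i1 =>
    by_cases hgh : g = h
    · subst hgh; exact hself
    · rw [Circ.cut_gate_ne _ hgh] at h1
      cases hG : C.gate g with
      | leaf B' φ' => rw [hG] at h1; simp only [Gate.cut] at h1; split_ifs at h1
      | and i j => rw [hG] at h1; simp [Gate.cut] at h1
      | or i j =>
        rw [hG] at h1
        simp only [Gate.cut] at h1
        cases h1
        exact .right hG i1
      | dec v ch => rw [hG] at h1; simp only [Gate.cut] at h1; split_ifs at h1
  | @dec g v ch h1 _ i1 =>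
    by_cases hgh : g = h
    · subst hgh; exact hself
    · rw [Circ.cut_gate_ne _ hgh] at h1
      cases hG : C.gate g with
      | leaf B' φ' => rw [hG] at h1; simp only [Gate.cut] at h1; split_ifs at h1
      | and i j => rw [hG] at h1; simp [Gate.cut] at h1
      | or i j => rw [hG] at h1; simp [Gate.cut] at h1
      | dec v' ch' =>
        rw [hG] at h1
        simp only [Gate.cut] at h1
        split_ifs at h1 with hv
        cases h1
        refine .dec hG ?_
        rw [if_neg hv]
        exact i1

end Pool.Agent.H561R2.RO
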