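import Pool.Agent.H561R2.RO.Bias

/-!
# Cost measures of Boolean functions and the generic lower bound
-/

namespace Pool.Agent.H561R2.RO

open Finset

/-- A cost measure for Boolean functions of `n` variables. -/
structure CostM (n : ℕ) where
  cost : ((Fin n → Bool) → Bool) → ℕ → Prop
  mono : ∀ {f s t}, cost f s → s ≤ t → cost f t
  const : ∀ b, cost (fun _ => b) 1
  var : ∀ i, cost (fun z => z i) 1
  xor : ∀ {f g s t}, cost f s → cost g t → cost (fun z => f z ^^ g z) (2 * s + 2 * t + 3)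
  ite : ∀ {e f g r s t}, cost e r → cost f s → cost g t →
    cost (fun z => if e z then f z else g z) (2 * r + s + t + 3)

variable {n : ℕ} (M : CostM n)

/-- Arbitrary functions of computed bits. -/
theorem CostM.table {c : ℕ} : ∀ {m : ℕ} (y : Fin m → (Fin n → Bool) → Bool),
    (∀ i, M.cost (y i) c) → ∀ T : (Fin m → Bool) → Bool,
    M.cost (fun z => T fun i => y i z) ((2 * c + 4) * 2 ^ m - (2 * c + 3)) := by
  intro m
  induction m with
  | zero =>
    intro y _ T
    have : (fun z : Fin n → Bool => T fun i => y i z) = fun _ => T Fin.elim0 := by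
      funext z
      congr 1
      funext i
      exact i.elim0
    rw [this]
    exact M.mono (M.const _) (by omega)
  | succ m ih =>
    intro y hy T
    have h1 := ih (fun i => y i.succ) (fun i => hy _) (fun w => T (Fin.cons true w))
    have h0 := ih (fun i => y i.succ) (fun i => hy _) (fun w => T (Fin.cons false w))
    have h2 := M.ite (hy 0) h1 h0
    have e : (fun z : Fin n → Bool => T fun i => y i z) =
        fun z => if y 0 z then (fun z => T (Fin.cons true fun i => y i.succ z)) z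
          else (fun z => T (Fin.cons false fun i => y i.succ z)) z := by
      funext z
      have : (fun i => y i z) = Fin.cons (y 0 z) fun i => y i.succ z := by
        funext i
        refine Fin.cases ?_ (fun i => ?_) i <;> simp
      rw [this]
      cases y 0 z <;> simp
    rw [e]
    refine M.mono h2 ?_
    have h3 : 2 * c + 4 ≤ (2 * c + 4) * 2 ^ m := Nat.le_mul_of_pos_right _ (by positivity)
    have h4 : (2 * c + 4) * 2 ^ (m + 1) = 2 * ((2 * c + 4) * 2 ^ m) := by ring
    omega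

/-- The cost of the coordinates of `e`. -/
def CostM.CostE {m d : ℕ} (e : (Fin d → Bool) → Fin m → Bool) (κ : ℕ) : Prop :=
  ∀ (c : Fin d → Fin n) (i : Fin m), M.cost (fun z => e (fun j => z (c j)) i) κ

theorem CostM.costE_any {m d : ℕ} (e : (Fin d → Bool) → Fin m → Bool) :
    M.CostE e (6 * 2 ^ d) := by
  intro c i
  have h := M.table (c := 1) (fun (j : Fin d) z => z (c j)) (fun j => M.var _)
    (fun w => e w i)
  exact M.mono h (by omega)

theorem CostM.costE_dbl {m d κ : ℕ} {e : (Fin d → Bool) → Fin m → Bool} (h : M.CostE e κ) :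
    M.CostE (dbl e) (4 * κ + 3) := by
  intro c i
  exact M.mono (M.xor (h (fun j => c (Fin.castAdd d j)) i) (h (fun j => c (Fin.natAdd d j)) i))
    (by omega)

/-- The cost of the functions of the family. -/
theorem CostM.cost_fam {m d l κ : ℕ} {e : (Fin d → Bool) → Fin m → Bool} (h : M.CostE e κ)
    (hn : n = m + d + l) (T : ((Fin m → Bool) → Bool) × ((Fin m → Bool) → Bool)) :
    M.cost (fun z => fam (l := l) e T (fun i => z (Fin.cast hn.symm i)))
      ((8 * κ + 43) * 2 ^ m) := by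
  have h1 := M.table (c := 1)
    (fun (i : Fin m) z => z (Fin.cast hn.symm (Fin.castAdd l (Fin.castAdd d i))))
    (fun i => M.var _) T.1
  have hy : ∀ i : Fin m, M.cost (fun z => py (l := l) e (fun i => z (Fin.cast hn.symm i)) i)
      (2 * κ + 5) := by
    intro i
    have := M.xor (M.var (Fin.cast hn.symm (Fin.castAdd l (Fin.castAdd d i))))
      (h (fun j => Fin.cast hn.symm (Fin.castAdd l (Fin.natAdd m j))) i)
    exact M.mono this (by omega)
  have h2 := M.table (fun (i : Fin m) z => py (l := l) e (fun i => z (Fin.cast hn.symm i)) i)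
    hy T.2
  have h3 := M.xor h1 h2
  refine M.mono h3 ?_
  have h4 : 1 ≤ 2 ^ m := Nat.one_le_two_pow
  have h5 : (8 * κ + 43) * 2 ^ m = 2 * ((2 * 1 + 4) * 2 ^ m) +
      2 * ((2 * (2 * κ + 5) + 4) * 2 ^ m) + 3 * 2 ^ m := by ring
  omega

set_option maxHeartbeats 400000 in
theorem bias_num {m k g ρ : ℕ} (hm : m ≤ 2 ^ k) (hρ : ρ = 2 * k + g + 4) :
    ((((m : ℝ) / 2 ^ ρ) ^ 2) ^ 2) ^ 2 ≤ 1 / 2 ^ (5 * k + 3 * g + 25 + 2) := by
  have h2 : (m : ℝ) ≤ 2 ^ k := by exact_mod_cast hm
  have h1 : (m : ℝ) / 2 ^ ρ ≤ 1 / 2 ^ (k + g + 4) := by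
    rw [div_le_div_iff₀ (by positivity) (by positivity), one_mul]
    calc (m : ℝ) * 2 ^ (k + g + 4) ≤ 2 ^ k * 2 ^ (k + g + 4) :=
          mul_le_mul_of_nonneg_right h2 (by positivity)
      _ = 2 ^ ρ := by rw [← pow_add]; congr 1; omega
  have h0 : (0 : ℝ) ≤ (m : ℝ) / 2 ^ ρ := by positivity
  generalize (m : ℝ) / 2 ^ ρ = x at h0 h1 ⊢
  have h3 : ((x ^ 2) ^ 2) ^ 2 = x ^ 8 := by ring
  rw [h3]
  refine (pow_le_pow_left₀ h0 h1 8).trans ?_
  rw [div_pow, one_pow, ← pow_mul]
  refine one_div_le_one_div_of_le (by positivity) ?_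
  exact pow_le_pow_right₀ (by norm_num) (by omega)

set_option maxHeartbeats 400000 in
open Classical in
/-- **The generic lower bound.** -/
theorem CostM.lower_bound {k m g s₁ S K : ℕ} (hn : n ≤ 2 ^ k)
    (hm : 15 * k + 9 * g + 79 ≤ m) (hmn : m + 32 * k + 16 * g + 64 ≤ n)
    (hs₁ : 2 ^ (m + 4 * k + 2 * g + 20) ≤ s₁)
    (C : Circ (Fin n → Bool) Bool S) (r : Fin S)
    (hleaf : C.LeafLE (2 ^ (n - (10 * k + 6 * g + 52))))
    (hacc : (univ.filter fun f => C.Acc f r).card ≤ 2 ^ K)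
    (hK : K ≤ 2 ^ (m + 5 * k + 3 * g + 23))
    (hyes : ∀ f, M.cost f s₁ → C.Acc f r) :
    2 ^ 2 ^ (m - (15 * k + 9 * g + 79)) ≤ S := by
  obtain ⟨ρ, hρ⟩ : ∃ ρ, ρ = 2 * k + g + 4 := ⟨_, rfl⟩
  obtain ⟨e, he⟩ := exists_biased m (r := ρ) (by omega)
  obtain ⟨l, hl⟩ : ∃ l, n = m + (((ρ + ρ) + (ρ + ρ)) + ((ρ + ρ) + (ρ + ρ)) +
    (((ρ + ρ) + (ρ + ρ)) + ((ρ + ρ) + (ρ + ρ)))) + l := ⟨n - (m + 16 * ρ), by omega⟩
  have hm2 : m ≤ 2 ^ k := by omega
  have hbias : Biased (dbl (dbl (dbl e))) (1 / 2 ^ (5 * k + 3 * g + 25 + 2)) :=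
    he.dbl.dbl.dbl.mono (bias_num hm2 hρ)
  have hcost := M.costE_dbl (M.costE_dbl (M.costE_dbl (M.costE_any e)))
  have hfam := fun T => M.cost_fam (l := l) hcost hl T
  have key := RO.lower_bound hbias (by omega) (by omega) hl C r
    (by
      have : n - 2 * (5 * k + 3 * g + 25) - 2 = n - (10 * k + 6 * g + 52) := by omega
      rw [this]
      exact hleaf)
    hacc
    (by
      have : m + (5 * k + 3 * g + 25) - 2 = m + 5 * k + 3 * g + 23 := by omega
      rw [this]
      exact hK)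
    (fun T => hyes _ (M.mono (hfam T) ?_))
  · have : m - 3 * (5 * k + 3 * g + 25) - 4 = m - (15 * k + 9 * g + 79) := by omega
    rw [this] at key
    exact key
  · refine le_trans ?_ hs₁
    have h1 : 2 ^ (m + 4 * k + 2 * g + 20) = 4096 * 2 ^ (ρ + ρ) * 2 ^ m := by
      rw [show (4096 : ℕ) = 2 ^ 12 by norm_num, ← pow_add, ← pow_add]
      congr 1
      omega
    rw [h1]
    refine Nat.mul_le_mul_right _ ?_
    have : 1 ≤ 2 ^ (ρ + ρ) := Nat.one_le_two_pow
    omega

end Pool.Agent.H561R2.RO
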