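import Pool.Agent.H561R2.RO.Cost
import Pool.Agent.H589R2.BPs

/-!
# The lower bound for branching program size
-/

namespace Pool.Agent.H561R2.RO

open Finset Pool.Agent.H589R2

theorem BCost_ite {n : ℕ} {e f g : Fn n} {r s t : ℕ} (he : BCost e r) (hf : BCost f s)
    (hg : BCost g t) : BCost (fun x => if e x then f x else g x) (r + s + t) := by
  intro k B h1 h0 m1 m0
  obtain ⟨k1, hk1, B1, a1, b1⟩ := hg k B h1 h0 m1 m0
  obtain ⟨k2, hk2, B2, a2, b2⟩ := hf k1 B1 h1 h0 (a1 m1) (a1 m0)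
  obtain ⟨k3, hk3, B3, a3, b3⟩ := he k2 B2 _ _ b2 (a2 b1)
  refine ⟨k3, by omega, B3, (a1.trans a2).trans a3, ?_⟩
  have : (fun x => if (if e x = true then f x else g x) = true then h1 x else h0 x) =
      fun x => if e x = true then (if f x = true then h1 x else h0 x)
        else (if g x = true then h1 x else h0 x) := by
    funext x
    cases e x <;> rfl
  rw [this]
  exact b3

/-- Branching program size. -/
def bpCost (n : ℕ) : CostM n where
  cost f s := BCost f s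
  mono := fun h hst => h.mono hst
  const := fun b => (BCost.const b).mono (Nat.zero_le 1)
  var := fun i => by
    have h := BCost.var (n := n) i.2
    have e : co n i.1 = fun z : Fin n → Bool => z i := by
      funext z
      simp [co, i.2]
    rwa [e] at h
  xor := fun hf hg => (hf.xor hg).mono (by omega)
  ite := fun he hf hg => (BCost_ite he hf hg).mono (by omega)

theorem bp_lower_bound {n k m g s₁ s₂ S : ℕ} (hn : n ≤ 2 ^ k)
    (hm : 15 * k + 9 * g + 79 ≤ m) (hmn : m + 32 * k + 16 * g + 64 ≤ n)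
    (hs₁ : 2 ^ (m + 4 * k + 2 * g + 20) + 4 ≤ s₁) (hs₂ : s₂ ≤ 2 ^ (m + 4 * k + 3 * g + 20))
    (C : Circ (Fin n → Bool) Bool S) (r : Fin S)
    (hleaf : C.LeafLE (2 ^ (n - (10 * k + 6 * g + 52))))
    (hyes : ∀ f : Fn n, (∃ B : BP n, B.size ≤ s₁ ∧ B.eval = f) → C.Acc f r)
    (hno : ∀ f : Fn n, C.Acc f r → ∃ B : BP n, B.size ≤ s₂ ∧ B.eval = f) :
    2 ^ 2 ^ (m - (15 * k + 9 * g + 79)) ≤ S := by
  classical
  refine (bpCost n).lower_bound (s₁ := 2 ^ (m + 4 * k + 2 * g + 20))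
    (K := 3 * n * (2 ^ (m + 4 * k + 3 * g + 20) + 1)) hn hm hmn le_rfl
    C r hleaf ?_ ?_ fun f hf => hyes f ?_
  · have h1 : (univ.filter fun f => C.Acc f r) ⊆ smallB n (2 ^ (m + 4 * k + 3 * g + 20)) := by
      intro f hf
      rw [Finset.mem_filter] at hf
      obtain ⟨B, hB, hBf⟩ := hno f hf.2
      simp only [smallB, Finset.mem_filter, Finset.mem_univ, true_and]
      exact ⟨B, hB.trans hs₂, hBf⟩
    refine (Finset.card_le_card h1).trans (smallB_card n _ n ?_)
    have h2 : 2 ^ n = 2 * 2 ^ (n - 1) := by rw [← pow_succ']; congr 1; omega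
    have h3 : n - 1 < 2 ^ (n - 1) := Nat.lt_two_pow_self
    have h4 : 2 ^ (m + 4 * k + 3 * g + 20) ≤ 2 ^ (n - 1) :=
      Nat.pow_le_pow_right (by norm_num) (by omega)
    omega
  · have h1 : 3 * (2 ^ (m + 4 * k + 3 * g + 20) + 1) ≤ 4 * 2 ^ (m + 4 * k + 3 * g + 20) := by
      have : 2 ^ 2 ≤ 2 ^ (m + 4 * k + 3 * g + 20) := Nat.pow_le_pow_right (by norm_num) (by omega)
      omega
    calc 3 * n * (2 ^ (m + 4 * k + 3 * g + 20) + 1)
        = n * (3 * (2 ^ (m + 4 * k + 3 * g + 20) + 1)) := by ring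
      _ ≤ 2 ^ k * (4 * 2 ^ (m + 4 * k + 3 * g + 20)) := Nat.mul_le_mul hn h1
      _ = 2 ^ (m + 5 * k + 3 * g + 22) := by
          rw [show (4 : ℕ) = 2 ^ 2 by norm_num, ← pow_add, ← pow_add]
          congr 1
          ring
      _ ≤ _ := Nat.pow_le_pow_right (by norm_num) (by omega)
  · obtain ⟨P, hP, hP'⟩ := BCost.exists_BP (n := n) (by omega) hf
    exact ⟨P, hP.trans hs₁, hP'⟩

end Pool.Agent.H561R2.RO
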