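import Pool.Agent.H561R2.RO.Mix

/-!
# Small-bias sets (powering construction of Alon, Goldreich, Håstad and Peralta, and sums)
-/

namespace Pool.Agent.H561R2.RO

open Finset Pool.Agent.H532R2.MC

/-- The sign of an element of the field with two elements. -/
def sgz (a : ZMod 2) : ℝ := if a = 0 then 1 else -1

theorem sgz_add (a b : ZMod 2) : sgz (a + b) = sgz a * sgz b := by
  have h : ∀ a b : ZMod 2, (a + b = 0 ↔ (a = 0 ↔ b = 0)) := by decide
  unfold sgz
  by_cases ha : a = 0 <;> by_cases hb : b = 0 <;> simp [h a b, ha, hb]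

theorem sg_decide (a : ZMod 2) : sg (decide (a ≠ 0)) = sgz a := by
  unfold sg sgz
  by_cases ha : a = 0 <;> simp [ha]

section

variable {F : Type} [Field F] [Fintype F] [DecidableEq F] [Algebra (ZMod 2) F]

theorem sgz_sum (ℓ : F →ₗ[ZMod 2] ZMod 2) {ι : Type} (S : Finset ι) (f : ι → F) :
    ∏ i ∈ S, sgz (ℓ (f i)) = sgz (ℓ (∑ i ∈ S, f i)) := by
  classical
  induction S using Finset.induction_on with
  | empty => simp [sgz]
  | insert a S ha ih => rw [Finset.prod_insert ha, Finset.sum_insert ha, map_add, sgz_add, ih]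

theorem sum_sgz (ℓ : F →ₗ[ZMod 2] ZMod 2) (hℓ : ℓ 1 ≠ 0) (γ : F) :
    ∑ β : F, sgz (ℓ (γ * β)) = if γ = 0 then (Fintype.card F : ℝ) else 0 := by
  split_ifs with h
  · subst h
    simp [sgz]
  · have h1 : ∑ β : F, sgz (ℓ (γ * β)) = ∑ β : F, sgz (ℓ (γ * (β + γ⁻¹))) :=
      (Equiv.sum_comp (Equiv.addRight γ⁻¹) fun β => sgz (ℓ (γ * β))).symm
    have h2 : ∀ β : F, sgz (ℓ (γ * (β + γ⁻¹))) = -sgz (ℓ (γ * β)) := by
      intro β
      rw [mul_add, mul_inv_cancel₀ h, map_add, sgz_add]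
      have : sgz (ℓ 1) = -1 := by unfold sgz; rw [if_neg hℓ]
      rw [this]
      ring
    rw [Finset.sum_congr rfl fun β _ => h2 β, Finset.sum_neg_distrib] at h1
    linarith

/-- The powering construction. -/
theorem powering_bias (ℓ : F →ₗ[ZMod 2] ZMod 2) (hℓ : ℓ 1 ≠ 0) {m : ℕ} (S : Finset (Fin m))
    (hS : S.Nonempty) :
    |∑ p : F × F, chi S (fun i => decide (ℓ (p.1 ^ (i : ℕ) * p.2) ≠ 0))| ≤
      m * Fintype.card F := by
  have h1 : ∀ p : F × F, chi S (fun i => decide (ℓ (p.1 ^ (i : ℕ) * p.2) ≠ 0)) =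
      sgz (ℓ ((∑ i ∈ S, p.1 ^ (i : ℕ)) * p.2)) := by
    intro p
    unfold chi
    rw [Finset.sum_mul, ← sgz_sum]
    exact Finset.prod_congr rfl fun i _ => sg_decide _
  rw [Finset.sum_congr rfl fun p _ => h1 p,
    Fintype.sum_prod_type (fun p : F × F => sgz (ℓ ((∑ i ∈ S, p.1 ^ (i : ℕ)) * p.2)))]
  simp only
  rw [Finset.sum_congr rfl fun α _ => sum_sgz ℓ hℓ (∑ i ∈ S, α ^ (i : ℕ)), ← Finset.sum_filter,
    Finset.sum_const, nsmul_eq_mul, abs_of_nonneg (by positivity)]
  refine mul_le_mul_of_nonneg_right ?_ (Nat.cast_nonneg _)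
  -- the roots of a polynomial
  let P : Polynomial F := ∑ i ∈ S, Polynomial.X ^ (i : ℕ)
  have hcoeff : ∀ j ∈ S, P.coeff (j : ℕ) = 1 := by
    intro j hj
    show (∑ i ∈ S, (Polynomial.X : Polynomial F) ^ (i : ℕ)).coeff (j : ℕ) = 1
    rw [Polynomial.finsetSum_coeff]
    simp only [Polynomial.coeff_X_pow]
    rw [Finset.sum_eq_single j]
    · simp
    · intro i _ hij
      rw [if_neg]
      intro h
      exact hij (Fin.ext h.symm)
    · intro h
      exact absurd hj h
  have hP : P ≠ 0 := by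
    obtain ⟨j, hj⟩ := hS
    intro h
    have := hcoeff j hj
    rw [h, Polynomial.coeff_zero] at this
    exact zero_ne_one this
  have hdeg : P.natDegree ≤ m := by
    refine Polynomial.natDegree_sum_le_of_forall_le _ _ fun i _ => ?_
    rw [Polynomial.natDegree_X_pow]
    exact i.2.le
  have hsub : (univ.filter fun α : F => ∑ i ∈ S, α ^ (i : ℕ) = 0) ⊆ P.roots.toFinset := by
    intro α hα
    rw [Finset.mem_filter] at hα
    rw [Multiset.mem_toFinset, Polynomial.mem_roots hP, Polynomial.IsRoot.def]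
    show (∑ i ∈ S, (Polynomial.X : Polynomial F) ^ (i : ℕ)).eval α = 0
    rw [Polynomial.eval_finsetSum]
    simpa using hα.2
  have hcard : (univ.filter fun α : F => ∑ i ∈ S, α ^ (i : ℕ) = 0).card ≤ m :=
    (Finset.card_le_card hsub).trans ((Multiset.toFinset_card_le _).trans
      ((Polynomial.card_roots' P).trans hdeg))
  exact_mod_cast hcard

end

/-- There are sets of polynomial size with small bias. -/
theorem exists_biased (m : ℕ) {r : ℕ} (hr : r ≠ 0) :
    ∃ e : (Fin (r + r) → Bool) → Fin m → Bool, Biased e (m / 2 ^ r) := by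
  classical
  have : Fintype (GaloisField 2 r) := Fintype.ofFinite _
  have hcard : Fintype.card (GaloisField 2 r) = 2 ^ r := by
    rw [← Nat.card_eq_fintype_card, GaloisField.card 2 r hr]
  have hcc : Fintype.card (Fin (r + r) → Bool) =
      Fintype.card (GaloisField 2 r × GaloisField 2 r) := by
    rw [Fintype.card_prod, hcard, Fintype.card_fun, Fintype.card_bool, Fintype.card_fin, pow_add]
  let φ := Fintype.equivOfCardEq hcc
  obtain ⟨ℓ, hℓ⟩ : ∃ ℓ : GaloisField 2 r →ₗ[ZMod 2] ZMod 2, ℓ 1 ≠ 0 := by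
    by_contra hcon
    push Not at hcon
    exact one_ne_zero ((Module.forall_dual_apply_eq_zero_iff (ZMod 2)
      (1 : GaloisField 2 r)).1 hcon)
  refine ⟨fun w i => decide (ℓ ((φ w).1 ^ (i : ℕ) * (φ w).2) ≠ 0), ?_⟩
  intro S hS
  have h1 := powering_bias ℓ hℓ S hS
  rw [← φ.sum_comp] at h1
  refine h1.trans (le_of_eq ?_)
  rw [hcard]
  push_cast
  rw [pow_add]
  field_simp

/-- The sum of two independent copies. -/
def dbl {m d : ℕ} (e : (Fin d → Bool) → Fin m → Bool) (w : Fin (d + d) → Bool) (i : Fin m) : Bool :=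
  e (fun j => w (Fin.castAdd d j)) i ^^ e (fun j => w (Fin.natAdd d j)) i

theorem Biased.dbl {m d : ℕ} {e : (Fin d → Bool) → Fin m → Bool} {ε : ℝ} (he : Biased e ε) :
    Biased (dbl e) (ε ^ 2) := by
  intro S hS
  have h := he S hS
  have h1 : ∑ w : Fin (d + d) → Bool, chi S (RO.dbl e w) = (∑ w, chi S (e w)) ^ 2 := by
    rw [← (Fin.appendEquiv d d).sum_comp, Fintype.sum_prod_type, sq, Finset.sum_mul_sum]
    refine Finset.sum_congr rfl fun w _ => Finset.sum_congr rfl fun w' _ => ?_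
    rw [← chi_xor]
    congr 1
    funext i
    have e1 : (fun j => Fin.append w w' (Fin.castAdd d j)) = w := by funext j; simp
    have e2 : (fun j => Fin.append w w' (Fin.natAdd d j)) = w' := by
      funext j; exact Fin.append_right w w' j
    show (e (fun j => Fin.append w w' (Fin.castAdd d j)) i ^^
      e (fun j => Fin.append w w' (Fin.natAdd d j)) i) = _
    rw [e1, e2]
  rw [h1, abs_pow, pow_add, ← sq, ← mul_pow]
  exact pow_le_pow_left₀ (abs_nonneg _) h 2

theorem Biased.mono {m d : ℕ} {e : (Fin d → Bool) → Fin m → Bool} {ε ε' : ℝ} (he : Biased e ε)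
    (h : ε ≤ ε') : Biased e ε' :=
  fun S hS => (he S hS).trans (mul_le_mul_of_nonneg_right h (by positivity))

end Pool.Agent.H561R2.RO
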