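import Pool.Agent.H532R2.MC.Defs

/-!
# Truth tables determine functions
-/

namespace Pool.Agent.H561R2.RO

open Pool.Agent.H532R2.MC

theorem table_len (n : ℕ) (f : BF n) : (table n f).length = 2 ^ n := by
  induction n with
  | zero => rfl
  | succ n ih => rw [table, List.length_append, ih, ih, pow_succ]; ring

theorem table_inj : ∀ (n : ℕ) {f g : BF n}, table n f = table n g → f = g := by
  intro n
  induction n with
  | zero =>
    intro f g h
    funext x
    have : x = Fin.elim0 := Subsingleton.elim _ _
    subst this
    simpa [table] using h
  | succ n ih =>
    intro f g h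
    rw [table, table] at h
    obtain ⟨h1, h2⟩ := List.append_inj h (by rw [table_len, table_len])
    funext x
    rw [← Fin.cons_self_tail x]
    cases x 0
    · exact congrFun (ih h1) _
    · exact congrFun (ih h2) _

end Pool.Agent.H561R2.RO
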