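import Pool.Agent.H561R2.RO.Cost
import Pool.Agent.H532R2.MC.Count
import Pool.Agent.H532R2.MC.Lupanov
import Pool.Agent.H532R2.MC.Params
import Pool.Agent.H561R2.RO.Table

/-!
# The lower bound for circuit size
-/

namespace Pool.Agent.H561R2.RO

open Finset Pool.Agent.H532R2.MC

/-- Circuit size. -/
def circuitCost (n : ℕ) (hn : 0 < n) : CostM n where
  cost f s := Cst (vars n) f s
  mono := fun h hst => h.mono subset_rfl hst
  const := fun b => by
    have h0 : (fun z : Fin n → Bool => z ⟨0, hn⟩) ∈ vars n := ⟨⟨0, hn⟩, rfl⟩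
    cases b
    · exact Cst.false h0
    · exact Cst.true h0
  var := fun i => (Cst.of_mem (B := vars n) (f := fun z : Fin n → Bool => z i)
    ⟨i, rfl⟩).mono subset_rfl (Nat.zero_le 1)
  xor := fun hf hg => (hf.xor hg).mono subset_rfl (by omega)
  ite := fun {e f g r s t} he hf hg => by
    refine (((he.and hf).or (he.not.and hg)).mono subset_rfl (by omega)).congr fun x => ?_
    cases e x <;> simp

/-- The number of functions with small circuits. -/
theorem count_circuits {n t : ℕ} (hn : n ≤ t) (h0 : 1 ≤ t) :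
    (small n t).card ≤ 4 * t * (t + 1) * (96 * t) ^ t := by
  have h1 : (small n t).card * t ^ t ≤ 4 * t * (t + 1) * (96 * t) ^ t * t ^ t := by
    calc (small n t).card * t ^ t ≤ (small n t).card * (3 ^ t * t.factorial) :=
          Nat.mul_le_mul_left _ (pow_self_le t)
      _ = 3 ^ t * (t.factorial * (small n t).card) := by ring
      _ ≤ 3 ^ t * ((t + 1) * ((8 * (n + t) ^ 2) ^ t * (2 * (n + t)))) :=
          Nat.mul_le_mul_left _ (small_card n t)
      _ ≤ 3 ^ t * ((t + 1) * ((8 * (t + t) ^ 2) ^ t * (2 * (t + t)))) := by gcongr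
      _ = 4 * t * (t + 1) * (3 ^ t * (8 * (t + t) ^ 2) ^ t) := by ring
      _ = 4 * t * (t + 1) * ((96 * t) ^ t * t ^ t) := by
          rw [← mul_pow, ← mul_pow]
          congr 2
          ring
      _ = _ := by ring
  exact Nat.le_of_mul_le_mul_right h1 (pow_pos (by omega) t)

/-- All functions of `m` variables have circuits of size `(6/5) 2 ^ m / m`. -/
theorem exists_lupanov {m : ℕ} (hm : 1024 ≤ m) :
    ∃ c, 5 * m * c ≤ 6 * 2 ^ m ∧ ∀ T : BF m, Cst (vars m) T c := by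
  obtain ⟨ℓ, h1, h2, h3, h4⟩ := log_facts hm
  have h5 := size_bound h1 h3 h4
  refine ⟨2 ^ (3 * ℓ) * (3 * ℓ + 1) + 1 + (2 ^ (3 * ℓ) / (m - 6 * ℓ) + 1) * 2 ^ (m - 6 * ℓ) +
      2 ^ (m - 3 * ℓ) * (2 ^ (3 * ℓ) / (m - 6 * ℓ) + 1 + (m - 3 * ℓ) + 3), ?_, ?_⟩
  · refine le_trans ?_ h5
    refine Nat.mul_le_mul (by omega) ?_
    rw [add_assoc (2 ^ (3 * ℓ) * (3 * ℓ + 1) + 1 + (2 ^ (3 * ℓ) / (m - 6 * ℓ) + 1) *
      2 ^ (m - 6 * ℓ) + 2 ^ (m - 3 * ℓ) * (2 ^ (3 * ℓ) / (m - 6 * ℓ) + 1 + (m - 3 * ℓ) + 3))]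
    exact Nat.le_add_right _ _
  · intro T
    obtain ⟨r, rfl⟩ : ∃ r, m = r + 3 * ℓ := ⟨m - 3 * ℓ, by omega⟩
    rw [Nat.add_sub_cancel]
    exact lupanov (by omega) (by omega) T

/-- The cost of the functions of the family. -/
theorem circ_fam {n m d l c : ℕ} (hn0 : 0 < n) (hc : ∀ T : BF m, Cst (vars m) T c)
    (e : (Fin d → Bool) → Fin m → Bool) (hn : n = m + d + l)
    (T : ((Fin m → Bool) → Bool) × ((Fin m → Bool) → Bool)) :
    Cst (vars n) (fun z => fam (l := l) e T (fun i => z (Fin.cast hn.symm i)))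
      (2 * c + m * (12 * 2 ^ d + 5) + 3) := by
  have h1 : Cst (vars n) (fun z => T.1 (px (l := l) (d := d)
      (fun i => z (Fin.cast hn.symm i)))) c := by
    refine (hc T.1).precomp
      (fun z : Fin n → Bool => px (l := l) (d := d) (fun i => z (Fin.cast hn.symm i))) ?_
    rintro _ ⟨i, rfl⟩
    exact ⟨_, rfl⟩
  have hκ := (circuitCost n hn0).costE_any e
  have hy : ∀ i ∈ (univ : Finset (Fin m)), Cst (vars n)
      (fun z => py (l := l) e (fun i => z (Fin.cast hn.symm i)) i) (12 * 2 ^ d + 5) := by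
    intro i _
    have := (circuitCost n hn0).xor
      ((circuitCost n hn0).var (Fin.cast hn.symm (Fin.castAdd l (Fin.castAdd d i))))
      (hκ (fun j => Fin.cast hn.symm (Fin.castAdd l (Fin.natAdd m j))) i)
    exact (circuitCost n hn0).mono this (by omega)
  have h2 := Comp.family univ hy
  rw [Finset.card_univ, Fintype.card_fin] at h2
  have h3 : Cst (vars n ∪ (fun i (z : Fin n → Bool) =>
      py (l := l) e (fun i => z (Fin.cast hn.symm i)) i) '' ((univ : Finset (Fin m)) : Set (Fin m)))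
      (fun z => T.2 (py (l := l) e (fun i => z (Fin.cast hn.symm i)))) c := by
    refine (hc T.2).precomp
      (fun z : Fin n → Bool => py (l := l) e (fun i => z (Fin.cast hn.symm i))) ?_
    rintro _ ⟨i, rfl⟩
    exact Or.inr ⟨i, by simp, rfl⟩
  have h4 := Comp.cst h2 h3
  exact (h1.xor h4).mono subset_rfl (by omega)

theorem lower_bound_circuits {n m k g s₁ s₂ S : ℕ} (hk : m ≤ 2 ^ k) (hm0 : 1024 ≤ m)
    (hm1 : 4 * k + 2 * g + 23 ≤ m) (hm2 : 3 * g + 22 ≤ m) (hnm : n * m ≤ 2 ^ m)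
    (hmn : m + 2 * k + 2 * g + 16 ≤ n)
    (hs₁ : 3 * 2 ^ m ≤ m * s₁) (h12 : s₁ ≤ s₂) (hs₂ : m * s₂ ≤ 2 ^ (m + g + 2))
    (C : Circ (Fin n → Bool) Bool S) (r : Fin S)
    (hleaf : C.LeafLE (2 ^ (n - (2 * g + 14))))
    (hyes : ∀ f : BF n, SizeLE n f s₁ → C.Acc f r)
    (hno : ∀ f : BF n, C.Acc f r → SizeLE n f s₂) :
    2 ^ 2 ^ (m - (3 * g + 22)) ≤ S := by
  classical
  obtain ⟨ρ, hρ⟩ : ∃ ρ, ρ = k + g + 8 := ⟨_, rfl⟩
  obtain ⟨e, he⟩ := exists_biased m (r := ρ) (by omega)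
  obtain ⟨l, hl⟩ : ∃ l, n = m + (ρ + ρ) + l := ⟨n - (m + (ρ + ρ)), by omega⟩
  have hn0 : 0 < n := by omega
  have hbias : Biased e (1 / 2 ^ (g + 6 + 2)) := by
    refine he.mono ?_
    rw [div_le_div_iff₀ (by positivity) (by positivity), one_mul]
    have h2 : (m : ℝ) ≤ 2 ^ k := by exact_mod_cast hk
    calc (m : ℝ) * 2 ^ (g + 6 + 2) ≤ 2 ^ k * 2 ^ (g + 6 + 2) :=
          mul_le_mul_of_nonneg_right h2 (by positivity)
      _ = 2 ^ ρ := by rw [← pow_add]; congr 1; omega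
  obtain ⟨c, hc1, hc2⟩ := exists_lupanov hm0
  have hfam := circ_fam (l := l) hn0 hc2 e hl
  have h2m : 1 ≤ 2 ^ m := Nat.one_le_two_pow
  have hs1pos : n ≤ s₂ := by
    have h1 : n * m ≤ s₂ * m := by
      calc n * m ≤ 2 ^ m := hnm
        _ ≤ 3 * 2 ^ m := by omega
        _ ≤ m * s₁ := hs₁
        _ ≤ s₂ * m := by rw [mul_comm]; exact Nat.mul_le_mul_right _ h12
    exact Nat.le_of_mul_le_mul_right h1 (by omega)
  have key := RO.lower_bound (τ := g + 6) (K := 2 ^ (m + (g + 6) - 2)) hbias (by omega) (by omega)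
    hl C r
    (by
      have : n - 2 * (g + 6) - 2 = n - (2 * g + 14) := by omega
      rw [this]
      exact hleaf) ?_ le_rfl (fun T => hyes _ (sizeLE_iff.2 ((hfam T).mono subset_rfl ?_)))
  · have : m - 3 * (g + 6) - 4 = m - (3 * g + 22) := by omega
    rw [this] at key
    exact key
  · -- counting
    have h1 : (univ.filter fun f => C.Acc f r) ⊆ small n s₂ := by
      intro f hf
      rw [Finset.mem_filter] at hf
      exact Finset.mem_filter.2 ⟨Finset.mem_univ _, hno f hf.2⟩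
    refine (Finset.card_le_card h1).trans ((count_circuits hs1pos (by omega)).trans ?_)
    have hs2 : s₂ ≤ 2 ^ (m + g + 2) := by
      have : 1 * s₂ ≤ m * s₂ := Nat.mul_le_mul_right _ (by omega)
      omega
    have e1 : 4 * s₂ * (s₂ + 1) ≤ 2 ^ (2 * (m + g + 2) + 3) := by
      have h5 : 1 ≤ 2 ^ (m + g + 2) := Nat.one_le_two_pow
      calc 4 * s₂ * (s₂ + 1) ≤ 4 * 2 ^ (m + g + 2) * (2 * 2 ^ (m + g + 2)) :=
            Nat.mul_le_mul (Nat.mul_le_mul_left _ hs2) (by omega)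
        _ = 2 ^ (2 * (m + g + 2) + 3) := by rw [pow_add 2 (2 * (m + g + 2)), two_mul, pow_add]; ring
    have e2 : (96 * s₂) ^ s₂ ≤ 2 ^ ((m + g + 9) * s₂) := by
      rw [pow_mul]
      refine Nat.pow_le_pow_left ?_ _
      calc 96 * s₂ ≤ 128 * 2 ^ (m + g + 2) := Nat.mul_le_mul (by norm_num) hs2
        _ = 2 ^ (m + g + 9) := by
            rw [show (128 : ℕ) = 2 ^ 7 by norm_num, ← pow_add]; congr 1; omega
    have e3 : (m + g + 9) * s₂ ≤ 2 * 2 ^ (m + g + 2) := by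
      calc (m + g + 9) * s₂ ≤ (2 * m) * s₂ := Nat.mul_le_mul_right _ (by omega)
        _ = 2 * (m * s₂) := by ring
        _ ≤ _ := Nat.mul_le_mul_left _ hs₂
    have e4 : 2 * (m + g + 2) + 3 ≤ 2 * 2 ^ (m + g + 2) := by
      have : m + g + 2 < 2 ^ (m + g + 2) := Nat.lt_two_pow_self
      have h6 : 2 * (m + g + 2) + 3 ≤ 4 * (m + g + 2) := by omega
      obtain ⟨j, hj⟩ : ∃ j, m + g + 2 = j + 1 := ⟨m + g + 1, rfl⟩
      have h7 : j + 1 ≤ 2 ^ j := Nat.lt_two_pow_self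
      rw [hj, pow_succ]
      omega
    calc 4 * s₂ * (s₂ + 1) * (96 * s₂) ^ s₂ ≤
          2 ^ (2 * (m + g + 2) + 3) * 2 ^ ((m + g + 9) * s₂) := Nat.mul_le_mul e1 e2
      _ = 2 ^ (2 * (m + g + 2) + 3 + (m + g + 9) * s₂) := (pow_add 2 _ _).symm
      _ ≤ 2 ^ 2 ^ (m + (g + 6) - 2) := by
          refine Nat.pow_le_pow_right (by norm_num) ?_
          have : 2 ^ (m + (g + 6) - 2) = 4 * 2 ^ (m + g + 2) := by
            rw [show (4 : ℕ) = 2 ^ 2 by norm_num, ← pow_add]; congr 1; omega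
          rw [this]
          omega
  · -- the cost
    have hm' : 0 < m := by omega
    have h1 : m * (2 * c + m * (12 * 2 ^ (ρ + ρ) + 5) + 3) ≤ m * s₁ := by
      have e1 : 12 * 2 ^ (ρ + ρ) + 5 ≤ 17 * 2 ^ (ρ + ρ) := by
        have : 1 ≤ 2 ^ (ρ + ρ) := Nat.one_le_two_pow
        omega
      have e2 : 5 * (m * (m * (12 * 2 ^ (ρ + ρ) + 5) + 3)) ≤ 3 * 2 ^ m := by
        have e3 : m * (m * (12 * 2 ^ (ρ + ρ) + 5) + 3) ≤ 20 * (m * m * 2 ^ (ρ + ρ)) := by
          have h3 : 3 ≤ 3 * (m * 2 ^ (ρ + ρ)) := by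
            have : 1 ≤ m * 2 ^ (ρ + ρ) := Nat.mul_pos hm' (by positivity)
            omega
          calc m * (m * (12 * 2 ^ (ρ + ρ) + 5) + 3)
              ≤ m * (m * (17 * 2 ^ (ρ + ρ)) + 3 * (m * 2 ^ (ρ + ρ))) :=
                Nat.mul_le_mul_left _ (Nat.add_le_add (Nat.mul_le_mul_left _ e1) h3)
            _ = 20 * (m * m * 2 ^ (ρ + ρ)) := by ring
        have e4 : m * m * 2 ^ (ρ + ρ) ≤ 2 ^ (4 * k + 2 * g + 16) := by
          calc m * m * 2 ^ (ρ + ρ) ≤ 2 ^ k * 2 ^ k * 2 ^ (ρ + ρ) :=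
                Nat.mul_le_mul_right _ (Nat.mul_le_mul hk hk)
            _ = 2 ^ (4 * k + 2 * g + 16) := by
                rw [← pow_add, ← pow_add]; congr 1; omega
        have e5 : 2 ^ (4 * k + 2 * g + 23) ≤ 2 ^ m := Nat.pow_le_pow_right (by norm_num) hm1
        have e6 : 2 ^ (4 * k + 2 * g + 23) = 128 * 2 ^ (4 * k + 2 * g + 16) := by
          rw [show (128 : ℕ) = 2 ^ 7 by norm_num, ← pow_add]; congr 1; omega
        omega
      have e3 : m * (2 * c + m * (12 * 2 ^ (ρ + ρ) + 5) + 3) =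
          2 * (m * c) + m * (m * (12 * 2 ^ (ρ + ρ) + 5) + 3) := by ring
      have e4 : 5 * m * c = 5 * (m * c) := by ring
      rw [e4] at hc1
      rw [e3]
      omega
    exact Nat.le_of_mul_le_mul_left h1 hm'

end Pool.Agent.H561R2.RO
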