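import Pool.Agent.H561R2.RO.Defs

/-!
# Restricting the alphabet of a decomposable circuit
-/

namespace Pool.Agent.H561R2.RO

variable {Λ A A' : Type} {S : ℕ}

/-- Restricting a gate to strings over a smaller alphabet. -/
def Gate.comap (ι : A → A') : Gate Λ A' S → Gate Λ A S
  | .leaf B φ => .leaf B fun a => φ fun v => ι (a v)
  | .and i j => .and i j
  | .or i j => .or i j
  | .dec v ch => .dec v fun c => ch (ι c)

/-- Restricting a circuit to strings over a smaller alphabet. -/
def Circ.comap (ι : A → A') (C : Circ Λ A' S) : Circ Λ A S where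
  gate g := (C.gate g).comap ι
  scope := C.scope
  ok := by
    intro g
    have h := C.ok g
    cases hG : C.gate g with
    | leaf B φ =>
      rw [hG] at h
      exact ⟨h.1, fun a a' haa => h.2 _ _ fun v hv => by rw [haa v hv]⟩
    | and i j => rw [hG] at h; exact h
    | or i j => rw [hG] at h; exact h
    | dec v ch =>
      rw [hG] at h
      exact ⟨h.1, fun c => h.2 (ι c)⟩

theorem Circ.comap_leafLE {ι : A → A'} {C : Circ Λ A' S} {b : ℕ} (h : C.LeafLE b) :
    (C.comap ι).LeafLE b := by
  intro g B φ hg
  have hg' : (C.gate g).comap ι = .leaf B φ := hg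
  cases hG : C.gate g with
  | leaf B' φ' =>
    rw [hG] at hg'
    simp only [Gate.comap, Gate.leaf.injEq] at hg'
    obtain ⟨rfl, -⟩ := hg'
    exact h g _ _ hG
  | and i j => rw [hG] at hg'; simp [Gate.comap] at hg'
  | or i j => rw [hG] at hg'; simp [Gate.comap] at hg'
  | dec v ch => rw [hG] at hg'; simp [Gate.comap] at hg'

theorem Circ.comap_acc {ι : A → A'} {C : Circ Λ A' S} {a : Λ → A} {g : Fin S} :
    (C.comap ι).Acc a g ↔ C.Acc (fun v => ι (a v)) g := by
  constructor
  · intro h
    induction h with
    | @leaf g B φ h1 h2 =>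
      have hg' : (C.gate g).comap ι = .leaf B φ := h1
      cases hG : C.gate g with
      | leaf B' φ' =>
        rw [hG] at hg'
        simp only [Gate.comap, Gate.leaf.injEq] at hg'
        obtain ⟨rfl, rfl⟩ := hg'
        exact .leaf hG h2
      | and i j => rw [hG] at hg'; simp [Gate.comap] at hg'
      | or i j => rw [hG] at hg'; simp [Gate.comap] at hg'
      | dec v ch => rw [hG] at hg'; simp [Gate.comap] at hg'
    | @and g i j h1 _ _ i1 i2 =>
      have hg' : (C.gate g).comap ι = .and i j := h1
      cases hG : C.gate g with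
      | leaf B' φ' => rw [hG] at hg'; simp [Gate.comap] at hg'
      | and i' j' =>
        rw [hG] at hg'
        simp only [Gate.comap, Gate.and.injEq] at hg'
        obtain ⟨rfl, rfl⟩ := hg'
        exact .and hG i1 i2
      | or i j => rw [hG] at hg'; simp [Gate.comap] at hg'
      | dec v ch => rw [hG] at hg'; simp [Gate.comap] at hg'
    | @left g i j h1 _ i1 =>
      have hg' : (C.gate g).comap ι = .or i j := h1
      cases hG : C.gate g with
      | leaf B' φ' => rw [hG] at hg'; simp [Gate.comap] at hg'
      | and i' j' => rw [hG] at hg'; simp [Gate.comap] at hg'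
      | or i' j' =>
        rw [hG] at hg'
        simp only [Gate.comap, Gate.or.injEq] at hg'
        obtain ⟨rfl, rfl⟩ := hg'
        exact .left hG i1
      | dec v ch => rw [hG] at hg'; simp [Gate.comap] at hg'
    | @right g i j h1 _ i1 =>
      have hg' : (C.gate g).comap ι = .or i j := h1
      cases hG : C.gate g with
      | leaf B' φ' => rw [hG] at hg'; simp [Gate.comap] at hg'
      | and i' j' => rw [hG] at hg'; simp [Gate.comap] at hg'
      | or i' j' =>
        rw [hG] at hg'
        simp only [Gate.comap, Gate.or.injEq] at hg'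
        obtain ⟨rfl, rfl⟩ := hg'
        exact .right hG i1
      | dec v ch => rw [hG] at hg'; simp [Gate.comap] at hg'
    | @dec g v ch h1 _ i1 =>
      have hg' : (C.gate g).comap ι = .dec v ch := h1
      cases hG : C.gate g with
      | leaf B' φ' => rw [hG] at hg'; simp [Gate.comap] at hg'
      | and i' j' => rw [hG] at hg'; simp [Gate.comap] at hg'
      | or i' j' => rw [hG] at hg'; simp [Gate.comap] at hg'
      | dec v' ch' =>
        rw [hG] at hg'
        simp only [Gate.comap, Gate.dec.injEq] at hg'
        obtain ⟨rfl, rfl⟩ := hg'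
        exact .dec hG i1
  · intro h
    induction h with
    | @leaf g B φ h1 h2 =>
      exact .leaf (B := B) (φ := fun a => φ fun v => ι (a v))
        (show (C.gate g).comap ι = _ by rw [h1]; rfl) h2
    | @and g i j h1 _ _ i1 i2 =>
      exact .and (show (C.gate g).comap ι = .and i j by rw [h1]; rfl) i1 i2
    | @left g i j h1 _ i1 =>
      exact .left (show (C.gate g).comap ι = .or i j by rw [h1]; rfl) i1
    | @right g i j h1 _ i1 =>
      exact .right (show (C.gate g).comap ι = .or i j by rw [h1]; rfl) i1
    | @dec g v ch h1 _ i1 =>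
      exact .dec (v := v) (ch := fun c => ch (ι c))
        (show (C.gate g).comap ι = _ by rw [h1]; rfl) i1

end Pool.Agent.H561R2.RO
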