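import Pool.Agent.H561R2.RO.Cut

/-!
# Counting accepted strings by cutting computations
-/

set_option linter.unusedSectionVars false

namespace Pool.Agent.H561R2.RO

open Finset

variable {Λ A : Type} [DecidableEq Λ] {S : ℕ}

/-- The computations of `C` which are cut successively at the given gates. -/
def Run (r : Fin S) : Circ Λ A S → List (Fin S) → (Λ → A) → Prop
  | C, [], a => C.Acc a r
  | C, g :: gs, a => C.Acc a g ∧ Run r (C.cut g) gs a

/-- All pieces have scopes with more than `w` positions. -/
def Big (w : ℕ) : Circ Λ A S → List (Fin S) → Prop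
  | _, [] => True
  | C, g :: gs => w < (C.scope g).card ∧ Big w (C.cut g) gs

theorem exists_run {r : Fin S} {w : ℕ} (hw : 1 ≤ w) {a : Λ → A} :
    ∀ (t : ℕ) (C : Circ Λ A S) (L : Finset Λ), C.LeafLE (2 * w) → C.Cert a r L →
      2 * w * t < L.card → ∃ gs : List (Fin S), gs.length = t ∧ Run r C gs a ∧ Big w C gs := by
  intro t
  induction t with
  | zero =>
    intro C L _ hc _
    exact ⟨[], rfl, hc.acc, trivial⟩
  | succ t ih =>
    intro C L hleaf hc hL
    have h0 : 2 * w * (t + 1) = 2 * w * t + 2 * w := by ring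
    obtain ⟨h, K, k1, k2, k3, k4, k5, k6, k7⟩ := hc.exists_cut hw hleaf (by omega)
    have h1 := Finset.card_sdiff_add_card_eq_card k6
    obtain ⟨gs, e1, e2, e3⟩ := ih (C.cut h) (L \ K) (C.cut_leafLE hleaf h) k7 (by omega)
    refine ⟨h :: gs, by rw [List.length_cons, e1], ⟨k3.acc, e2⟩, ?_, e3⟩
    exact lt_of_lt_of_le k4 (Finset.card_le_card k3.sub)

variable [Fintype Λ] [Fintype A] [DecidableEq A]

open Classical in
/-- The assignments to the scope of `g` which are accepted by gate `g`. -/
noncomputable def loc (δ : A) (C : Circ Λ A S) (g : Fin S) : Finset (Λ → A) :=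
  univ.filter fun α => (∀ v, v ∉ C.scope g → α v = δ) ∧ C.Acc α g

open Classical in
/-- The accepted strings with the default value at the positions in `W`. -/
noncomputable def accd (δ : A) (C : Circ Λ A S) (r : Fin S) (W : Finset Λ) : Finset (Λ → A) :=
  univ.filter fun α => (∀ v ∈ W, α v = δ) ∧ C.Acc α r

/-- The product of the numbers of local assignments. -/
noncomputable def prodA (δ : A) : Circ Λ A S → List (Fin S) → ℕ
  | _, [] => 1
  | C, g :: gs => (loc δ C g).card * prodA δ (C.cut g) gs

theorem prodA_le (δ : A) {r : Fin S} {a : Λ → A} : ∀ (gs : List (Fin S)) (C : Circ Λ A S)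
    (W : Finset Λ), (∀ g, Disjoint (C.scope g) W) → Run r C gs a →
      prodA δ C gs ≤ (accd δ C r W).card := by
  classical
  intro gs
  induction gs with
  | nil =>
    intro C W hW hrun
    show 1 ≤ _
    rw [Nat.succ_le_iff, Finset.card_pos]
    refine ⟨fun v => if v ∈ W then δ else a v, ?_⟩
    unfold accd
    rw [Finset.mem_filter]
    refine ⟨Finset.mem_univ _, fun v hv => if_pos hv, ?_⟩
    refine Circ.Acc.congr (a := a) hrun fun v hv => ?_
    rw [if_neg (Finset.disjoint_left.1 (hW r) hv)]
  | cons g gs ih =>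
    intro C W hW hrun
    obtain ⟨hr1, hr2⟩ := hrun
    have h1 := ih (C.cut g) (W ∪ C.scope g) (fun g' => by
      rw [Finset.disjoint_union_right]
      refine ⟨Finset.disjoint_of_subset_left Finset.sdiff_subset (hW g'), ?_⟩
      exact Finset.sdiff_disjoint) hr2
    show (loc δ C g).card * prodA δ (C.cut g) gs ≤ _
    refine (Nat.mul_le_mul_left _ h1).trans ?_
    rw [← Finset.card_product]
    refine Finset.card_le_card_of_injOn
      (fun p => fun v => if v ∈ C.scope g then p.1 v else p.2 v) ?_ ?_
    · rintro ⟨α, β⟩ hp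
      rw [Finset.mem_coe, Finset.mem_product] at hp
      obtain ⟨hα, hβ⟩ := hp
      simp only [loc, accd, Finset.mem_filter, Finset.mem_univ, true_and] at hα hβ
      simp only [accd, Finset.mem_coe, Finset.mem_filter, Finset.mem_univ, true_and]
      refine ⟨fun v hv => ?_, Circ.Acc.glue hα.2 hβ.2⟩
      rw [if_neg fun h => Finset.disjoint_left.1 (hW g) h hv]
      exact hβ.1 v (Finset.mem_union_left _ hv)
    · rintro ⟨α, β⟩ hp ⟨α', β'⟩ hp' heq
      rw [Finset.mem_coe, Finset.mem_product] at hp hp'
      obtain ⟨hα, hβ⟩ := hp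
      obtain ⟨hα', hβ'⟩ := hp'
      simp only [loc, accd, Finset.mem_filter, Finset.mem_univ, true_and] at hα hβ hα' hβ'
      have e : ∀ v, (if v ∈ C.scope g then α v else β v) =
          if v ∈ C.scope g then α' v else β' v := fun v => congrFun heq v
      have e1 : α = α' := by
        funext v
        by_cases hv : v ∈ C.scope g
        · have := e v
          rwa [if_pos hv, if_pos hv] at this
        · rw [hα.1 v hv, hα'.1 v hv]
      have e2 : β = β' := by
        funext v
        by_cases hv : v ∈ C.scope g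
        · rw [hβ.1 v (Finset.mem_union_right _ hv), hβ'.1 v (Finset.mem_union_right _ hv)]
        · have := e v
          rwa [if_neg hv, if_neg hv] at this
      rw [e1, e2]

/-- The smallest factor. -/
theorem exists_factor (δ : A) {r : Fin S} {w : ℕ} : ∀ (gs : List (Fin S)) (C : Circ Λ A S),
    gs ≠ [] → Big w C gs → ∃ (K : Finset (Λ → A)) (U : Finset Λ), w < U.card ∧
      K.card ^ gs.length ≤ prodA δ C gs ∧
      ∀ a, Run r C gs a → (fun v => if v ∈ U then a v else δ) ∈ K := by
  classical
  intro gs
  induction gs with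
  | nil => intro C h; exact absurd rfl h
  | cons g gs ih =>
    intro C _ hbig
    obtain ⟨hb1, hb2⟩ := hbig
    have hloc : ∀ a, Run r C (g :: gs) a →
        (fun v => if v ∈ C.scope g then a v else δ) ∈ loc δ C g := by
      intro a ha
      simp only [loc, Finset.mem_filter, Finset.mem_univ, true_and]
      refine ⟨fun v hv => if_neg hv, ?_⟩
      exact Circ.Acc.congr ha.1 fun v hv => by rw [if_pos hv]
    by_cases hgs : gs = []
    · subst hgs
      refine ⟨loc δ C g, C.scope g, hb1, ?_, hloc⟩
      simp [prodA]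
    · obtain ⟨K, U, hU, hK, hrun⟩ := ih (C.cut g) hgs hb2
      show ∃ (K : Finset (Λ → A)) (U : Finset Λ), w < U.card ∧
        K.card ^ (gs.length + 1) ≤ (loc δ C g).card * prodA δ (C.cut g) gs ∧ _
      by_cases hle : (loc δ C g).card ≤ K.card
      · refine ⟨loc δ C g, C.scope g, hb1, ?_, hloc⟩
        rw [pow_succ']
        exact Nat.mul_le_mul_left _ ((Nat.pow_le_pow_left hle _).trans hK)
      · refine ⟨K, U, hU, ?_, fun a ha => hrun a ha.2⟩
        rw [pow_succ']
        exact Nat.mul_le_mul (by omega) hK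

/-- A certificate with few positions gives many accepted strings. -/
theorem cert_card (δ : A) {C : Circ Λ A S} {r : Fin S} {a : Λ → A} {L : Finset Λ}
    (hc : C.Cert a r L) :
    Fintype.card A ^ (Fintype.card Λ - L.card) ≤ (accd δ C r ∅).card := by
  classical
  have h1 : Fintype.card ({v // v ∉ L} → A) = Fintype.card A ^ (Fintype.card Λ - L.card) := by
    rw [Fintype.card_fun, Fintype.card_subtype_compl, Fintype.card_coe]
  rw [← h1, ← Finset.card_univ]
  refine Finset.card_le_card_of_injOn
    (fun f => fun v => if h : v ∉ L then f ⟨v, h⟩ else a v) ?_ ?_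
  · intro f _
    simp only [accd, Finset.mem_coe, Finset.mem_filter, Finset.mem_univ, true_and]
    refine ⟨fun v hv => absurd hv (Finset.notMem_empty v), ?_⟩
    refine (hc.congr fun v hv => ?_).acc
    rw [dif_neg (not_not.2 hv)]
  · intro f _ f' _ heq
    funext ⟨v, hv⟩
    have := congrFun heq v
    simp only [hv, not_false_eq_true, dif_pos] at this
    exact this

/-- **The counting theorem.** -/
theorem counting {ι : Type} [Fintype ι] (δ : A) (C : Circ Λ A S) (r : Fin S) {w t Y M : ℕ}
    (hw : 1 ≤ w) (ht : 1 ≤ t) (hleaf : C.LeafLE (2 * w)) (hY : (accd δ C r ∅).card ≤ Y)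
    (hcert : ∀ a L, C.Cert a r L → 2 * w * t < L.card)
    (F : ι → Λ → A) (hF : ∀ i, C.Acc (F i) r)
    (hM : ∀ (U : Finset Λ) (π : Λ → A), w < U.card →
      (univ.filter fun i => ∀ v ∈ U, F i v = π v).card ≤ M) :
    Fintype.card ι ^ t ≤ (S ^ t) ^ t * (Y * M ^ t) := by
  classical
  -- the computations cut at a given list
  let c : List.Vector (Fin S) t → ℕ := fun gs =>
    (univ.filter fun i => Run r C gs.1 (F i) ∧ Big w C gs.1).card
  have hc : ∀ gs, c gs ^ t ≤ Y * M ^ t := by
    rintro ⟨gs, hgs⟩
    by_cases hne : ∃ i, Run r C gs (F i) ∧ Big w C gs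
    · obtain ⟨i, hi1, hi2⟩ := hne
      have hgs0 : gs ≠ [] := by
        rintro rfl
        simp at hgs
        omega
      obtain ⟨K, U, hU, hK, hrun⟩ := exists_factor (r := r) δ gs C hgs0 hi2
      have h1 := (prodA_le δ gs C ∅ (fun _ => Finset.disjoint_empty_right _) hi1).trans hY
      have h2 : c ⟨gs, hgs⟩ ≤ K.card * M := by
        have hsub : (univ.filter fun i => Run r C gs (F i) ∧ Big w C gs) ⊆
            K.biUnion fun π => univ.filter fun i => ∀ v ∈ U, F i v = π v := by
          intro i hi
          rw [Finset.mem_filter] at hi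
          rw [Finset.mem_biUnion]
          refine ⟨_, hrun _ hi.2.1, ?_⟩
          rw [Finset.mem_filter]
          refine ⟨Finset.mem_univ _, fun v hv => ?_⟩
          rw [if_pos hv]
        refine (Finset.card_le_card hsub).trans (Finset.card_biUnion_le.trans ?_)
        refine (Finset.sum_le_card_nsmul K _ M fun π _ => hM U π hU).trans ?_
        rw [smul_eq_mul]
      rw [hgs] at hK
      calc c ⟨gs, hgs⟩ ^ t ≤ (K.card * M) ^ t := Nat.pow_le_pow_left h2 t
        _ = K.card ^ t * M ^ t := mul_pow _ _ _
        _ ≤ Y * M ^ t := Nat.mul_le_mul_right _ (hK.trans h1)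
    · have h0 : c ⟨gs, hgs⟩ = 0 := by
        rw [Finset.card_eq_zero, Finset.filter_eq_empty_iff]
        intro i _ hi
        exact hne ⟨i, hi⟩
      rw [h0, Nat.zero_pow (by omega)]
      exact Nat.zero_le _
  have hsum : Fintype.card ι ≤ ∑ gs : List.Vector (Fin S) t, c gs := by
    have hsub : (univ : Finset ι) ⊆ (univ : Finset (List.Vector (Fin S) t)).biUnion fun gs =>
        univ.filter fun i => Run r C gs.1 (F i) ∧ Big w C gs.1 := by
      intro i _
      obtain ⟨L, hL⟩ := (hF i).cert
      obtain ⟨gs, h1, h2, h3⟩ := exists_run hw t C L hleaf hL (hcert _ _ hL)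
      rw [Finset.mem_biUnion]
      exact ⟨⟨gs, h1⟩, Finset.mem_univ _, Finset.mem_filter.2 ⟨Finset.mem_univ _, h2, h3⟩⟩
    rw [← Finset.card_univ]
    exact (Finset.card_le_card hsub).trans Finset.card_biUnion_le
  by_cases hzero : (univ : Finset (List.Vector (Fin S) t)).Nonempty
  · obtain ⟨g₀, -, hg₀⟩ := Finset.exists_max_image univ c hzero
    have h1 : Fintype.card ι ≤ S ^ t * c g₀ := by
      refine hsum.trans ((Finset.sum_le_card_nsmul _ _ (c g₀) fun g _ => hg₀ g
        (Finset.mem_univ g)).trans ?_)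
      rw [smul_eq_mul, Finset.card_univ, card_vector, Fintype.card_fin]
    calc Fintype.card ι ^ t ≤ (S ^ t * c g₀) ^ t := Nat.pow_le_pow_left h1 t
      _ = (S ^ t) ^ t * c g₀ ^ t := mul_pow _ _ _
      _ ≤ _ := Nat.mul_le_mul_left _ (hc g₀)
  · rw [Finset.not_nonempty_iff_eq_empty] at hzero
    rw [hzero, Finset.sum_empty] at hsum
    have : Fintype.card ι = 0 := by omega
    rw [this, Nat.zero_pow (by omega)]
    exact Nat.zero_le _

end Pool.Agent.H561R2.RO
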