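import Mathlib

/-!
# Decomposable circuits with arbitrary functions of few positions at the leaves
-/

namespace Pool.Agent.H561R2.RO

/-- A gate of a decomposable circuit with `S` gates which reads a string `a : Λ → A`.
* `leaf B φ`: the value is `φ a`, where `φ` depends only on the positions in `B`;
* `and i j`, `or i j`: conjunction and disjunction of gates `i` and `j`;
* `dec v ch`: the circuit reads the letter `a v` and takes the value of gate `ch (a v)`. -/
inductive Gate (Λ A : Type) (S : ℕ) : Type
  | leaf (B : Finset Λ) (φ : (Λ → A) → Bool) : Gate Λ A S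
  | and (i j : Fin S) : Gate Λ A S
  | or (i j : Fin S) : Gate Λ A S
  | dec (v : Λ) (ch : A → Fin S) : Gate Λ A S

/-- The conditions on gate `g`, where `V g` is a set which contains all the positions on which
gate `g` may depend: the gates are listed in topological order, the two inputs of an AND gate use
disjoint sets of positions (decomposability), and the position read by a decision gate is not used
by its children (read-once). OR gates (nondeterminism) are not restricted. -/
def Gate.OK {Λ A : Type} {S : ℕ} (V : Fin S → Finset Λ) (g : Fin S) : Gate Λ A S → Prop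
  | .leaf B φ => B ⊆ V g ∧ ∀ a a' : Λ → A, (∀ v ∈ B, a v = a' v) → φ a = φ a'
  | .and i j => i < g ∧ j < g ∧ V i ⊆ V g ∧ V j ⊆ V g ∧ Disjoint (V i) (V j)
  | .or i j => i < g ∧ j < g ∧ V i ⊆ V g ∧ V j ⊆ V g
  | .dec v ch => v ∈ V g ∧ ∀ c, ch c < g ∧ V (ch c) ⊆ V g ∧ v ∉ V (ch c)

/-- A decomposable circuit with `S` gates. -/
structure Circ (Λ A : Type) (S : ℕ) where
  gate : Fin S → Gate Λ A S
  scope : Fin S → Finset Λ
  ok : ∀ g, (gate g).OK scope g

/-- `C.Acc a g` says that gate `g` has value 1 on the string `a`. -/
inductive Circ.Acc {Λ A : Type} {S : ℕ} (C : Circ Λ A S) (a : Λ → A) : Fin S → Prop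
  | leaf {g : Fin S} {B : Finset Λ} {φ : (Λ → A) → Bool} :
      C.gate g = .leaf B φ → φ a = true → C.Acc a g
  | and {g i j : Fin S} : C.gate g = .and i j → C.Acc a i → C.Acc a j → C.Acc a g
  | left {g i j : Fin S} : C.gate g = .or i j → C.Acc a i → C.Acc a g
  | right {g i j : Fin S} : C.gate g = .or i j → C.Acc a j → C.Acc a g
  | dec {g : Fin S} {v : Λ} {ch : A → Fin S} :
      C.gate g = .dec v ch → C.Acc a (ch (a v)) → C.Acc a g

/-- Every leaf is a function of at most `b` positions. -/
def Circ.LeafLE {Λ A : Type} {S : ℕ} (C : Circ Λ A S) (b : ℕ) : Prop :=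
  ∀ g B φ, C.gate g = .leaf B φ → B.card ≤ b

end Pool.Agent.H561R2.RO
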