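import Pool.Agent.H561R2.RO.Cost
import Pool.Agent.H532R2.MF.FCount
import Pool.Agent.H561R2.RO.Table

/-!
# The lower bound for the Minimum Formula Size Problem
-/

namespace Pool.Agent.H561R2.RO

open Finset Pool.Agent.H532R2.MC Pool.Agent.H532R2.MF

/-- Formula size. -/
def formulaCost (n : ℕ) : CostM n where
  cost f s := FL (Pool.Agent.H532R2.MF.vars n) f s
  mono := fun h hst => h.weak hst
  const := fun b => (FL.const b).weak (Nat.zero_le 1)
  var := fun i => FL.of_mem ⟨i, rfl⟩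
  xor := fun hf hg => (hf.xor hg).weak (by omega)
  ite := fun he hf hg => (FL.ite he hf hg).weak (by omega)

theorem mfsp_table_iff {n s : ℕ} (f : BF n) :
    MFSP n (table n f) s ↔ FL (Pool.Agent.H532R2.MF.vars n) f s := by
  unfold MFSP
  rw [fl_iff]
  constructor
  · rintro ⟨_, F, h1, h2⟩
    exact ⟨F, (table_inj _ h1).symm, h2⟩
  · rintro ⟨F, rfl, h⟩
    exact ⟨table_len _ _, F, rfl, h⟩

theorem formula_count {n k s : ℕ} (hn : n ≤ 2 ^ k) (hs : 1 ≤ s) :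
    2 + s * (16 * n) ^ s ≤ 2 ^ ((k + 6) * s) := by
  have h1 : (16 * n) ^ s ≤ 2 ^ ((k + 4) * s) := by
    rw [pow_mul]
    refine Nat.pow_le_pow_left ?_ s
    rw [pow_add]
    omega
  have h2 : s ≤ 2 ^ s := Nat.lt_two_pow_self.le
  have h3 : s * (16 * n) ^ s ≤ 2 ^ ((k + 5) * s) := by
    calc s * (16 * n) ^ s ≤ 2 ^ s * 2 ^ ((k + 4) * s) := Nat.mul_le_mul h2 h1
      _ = 2 ^ ((k + 5) * s) := by rw [← pow_add]; congr 1; ring
  have h4 : 2 ≤ 2 ^ ((k + 5) * s) := by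
    calc 2 = 2 ^ 1 := by norm_num
      _ ≤ _ := Nat.pow_le_pow_right (by norm_num) (by nlinarith)
  have h5 : 2 ^ ((k + 6) * s) = 2 ^ ((k + 5) * s) * 2 ^ s := by
    rw [← pow_add]; congr 1; ring
  have h6 : 2 ≤ 2 ^ s := by
    calc 2 = 2 ^ 1 := by norm_num
      _ ≤ _ := Nat.pow_le_pow_right (by norm_num) hs
  rw [h5]
  nlinarith

theorem le_two_pow_add {k : ℕ} : k + 6 ≤ 2 ^ (k + 3) := by
  have : k < 2 ^ k := Nat.lt_two_pow_self
  rw [pow_add]
  omega

theorem formula_lower_bound {n k m g s₁ s₂ S : ℕ} (hn : n ≤ 2 ^ k)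
    (hm : 15 * k + 9 * g + 79 ≤ m) (hmn : m + 32 * k + 16 * g + 64 ≤ n)
    (hs₁ : 2 ^ (m + 4 * k + 2 * g + 20) ≤ s₁) (hs₂ : s₂ ≤ 2 ^ (m + 4 * k + 3 * g + 20))
    (C : Circ (Fin n → Bool) Bool S) (r : Fin S)
    (hleaf : C.LeafLE (2 ^ (n - (10 * k + 6 * g + 52))))
    (hyes : ∀ f : BF n, MFSP n (table n f) s₁ → C.Acc f r)
    (hno : ∀ f : BF n, ¬MFSP n (table n f) s₂ → ¬C.Acc f r) :
    2 ^ 2 ^ (m - (15 * k + 9 * g + 79)) ≤ S := by
  classical
  refine (formulaCost n).lower_bound (K := (k + 6) * 2 ^ (m + 4 * k + 3 * g + 20)) hn hm hmn hs₁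
    C r hleaf ?_ ?_ fun f hf => hyes f ((mfsp_table_iff f).2 hf)
  · have h1 : (univ.filter fun f => C.Acc f r) ⊆
        Pool.Agent.H532R2.MF.small n (2 ^ (m + 4 * k + 3 * g + 20)) := by
      intro f hf
      rw [Finset.mem_filter] at hf
      unfold Pool.Agent.H532R2.MF.small
      rw [Finset.mem_filter]
      refine ⟨Finset.mem_univ _, ?_⟩
      have h2 : MFSP n (table n f) s₂ := by
        by_contra hcon
        exact hno f hcon hf.2
      exact ((mfsp_table_iff f).1 h2).weak hs₂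
    exact (Finset.card_le_card h1).trans ((small_card n _ (by omega)).trans
      (formula_count hn Nat.one_le_two_pow))
  · calc (k + 6) * 2 ^ (m + 4 * k + 3 * g + 20) ≤ 2 ^ (k + 3) * 2 ^ (m + 4 * k + 3 * g + 20) :=
          Nat.mul_le_mul_right _ le_two_pow_add
      _ = 2 ^ (m + 5 * k + 3 * g + 23) := by rw [← pow_add]; congr 1; ring

end Pool.Agent.H561R2.RO
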