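import Pool.Agent.H561R2.RO.Count
import Pool.Agent.H532R2.MC.Fourier

/-!
# The lower bound for families of functions with tables which are hard to localise
-/

namespace Pool.Agent.H561R2.RO

open Finset Pool.Agent.H532R2.MC

/-- The function `e` has bias at most `ε`. -/
def Biased {m d : ℕ} (e : (Fin d → Bool) → Fin m → Bool) (ε : ℝ) : Prop :=
  ∀ S : Finset (Fin m), S.Nonempty → |∑ w, chi S (e w)| ≤ ε * 2 ^ d

theorem pairs_le {m d : ℕ} {e : (Fin d → Bool) → Fin m → Bool} {ε : ℝ} (hε : 0 ≤ ε)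
    (he : Biased e ε) (P Q : Finset (Fin m → Bool)) {B : ℝ} (hP : (P.card : ℝ) ≤ B)
    (hQ : (Q.card : ℝ) ≤ B) :
    2 ^ m * ((univ.filter fun p : (Fin d → Bool) × (Fin m → Bool) =>
      p.2 ∈ P ∧ (fun i => p.2 i ^^ e p.1 i) ∈ Q).card : ℝ) ≤
      2 ^ d * (B ^ 2 + ε * 2 ^ m * B) := by
  classical
  have h := shift_scalar (ι := Fin m) e ε hε (by
    intro S hS
    have := he S hS
    simpa [Fintype.card_fun] using this)
    (fun x => if x ∈ P then 1 else 0) (fun y => if y ∈ Q then 1 else 0)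
  have e1 : ∑ x : Fin m → Bool, (if x ∈ P then (1 : ℝ) else 0) = P.card := by
    rw [Finset.sum_ite_mem, Finset.univ_inter, Finset.sum_const, nsmul_eq_mul, mul_one]
  have e2 : ∑ x : Fin m → Bool, (if x ∈ Q then (1 : ℝ) else 0) = Q.card := by
    rw [Finset.sum_ite_mem, Finset.univ_inter, Finset.sum_const, nsmul_eq_mul, mul_one]
  have e3 : ∑ x : Fin m → Bool, (if x ∈ P then (1 : ℝ) else 0) ^ 2 = P.card := by
    rw [← e1]
    exact Finset.sum_congr rfl fun x _ => by split_ifs <;> norm_num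
  have e4 : ∑ x : Fin m → Bool, (if x ∈ Q then (1 : ℝ) else 0) ^ 2 = Q.card := by
    rw [← e2]
    exact Finset.sum_congr rfl fun x _ => by split_ifs <;> norm_num
  have e5 : ∑ ω : Fin d → Bool, ∑ x : Fin m → Bool, (if x ∈ P then (1 : ℝ) else 0) *
      (if (fun i => x i ^^ e ω i) ∈ Q then 1 else 0) =
      ((univ.filter fun p : (Fin d → Bool) × (Fin m → Bool) =>
        p.2 ∈ P ∧ (fun i => p.2 i ^^ e p.1 i) ∈ Q).card : ℝ) := by
    rw [← Fintype.sum_prod_type' (fun ω x => (if x ∈ P then (1 : ℝ) else 0) *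
      (if (fun i => x i ^^ e ω i) ∈ Q then 1 else 0))]
    rw [Finset.card_filter]
    push_cast
    refine Finset.sum_congr rfl fun p _ => ?_
    by_cases h1 : p.2 ∈ P <;> by_cases h2 : (fun i => p.2 i ^^ e p.1 i) ∈ Q <;> simp [h1, h2]
  rw [e1, e2, e3, e4, e5] at h
  simp only [Fintype.card_fun, Fintype.card_bool, Fintype.card_fin, Nat.cast_pow,
    Nat.cast_ofNat] at h
  have hP0 : (0 : ℝ) ≤ P.card := Nat.cast_nonneg _
  have hQ0 : (0 : ℝ) ≤ Q.card := Nat.cast_nonneg _
  have hm : (0 : ℝ) < 2 ^ m := by positivity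
  have hd : (0 : ℝ) < 2 ^ d := by positivity
  have h6 : (P.card : ℝ) * Q.card ≤ B ^ 2 := by
    rw [sq]
    exact mul_le_mul hP hQ hQ0 (hP0.trans hP)
  have h7 : ((P.card : ℝ) + Q.card) / 2 ≤ B := by linarith
  have h8 : ε * 2 ^ d * (2 ^ m * (((P.card : ℝ) + Q.card) / 2)) ≤ ε * 2 ^ d * (2 ^ m * B) := by
    have : (0 : ℝ) ≤ ε * 2 ^ d := by positivity
    exact mul_le_mul_of_nonneg_left (mul_le_mul_of_nonneg_left h7 hm.le) this
  have h9 : (2 : ℝ) ^ d * (P.card * Q.card) ≤ 2 ^ d * B ^ 2 :=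
    mul_le_mul_of_nonneg_left h6 hd.le
  nlinarith [h, h8, h9]

/-- Functions which are prescribed at some points. -/
theorem prescribed_card {Z X : Type} [Fintype X] [DecidableEq X] (p q : Z → X)
    (U : Finset Z) (π : Z → Bool) (R : (X → Bool) × (X → Bool) → Prop) [DecidablePred R]
    (hR : ∀ T, R T → ∀ z ∈ U, (T.1 (p z) ^^ T.2 (q z)) = π z) :
    (univ.filter R).card ≤ 2 ^ (2 * Fintype.card X - (U.image p).card) := by
  have h1 : Fintype.card (({x // x ∉ U.image p} → Bool) × (X → Bool)) =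
      2 ^ (2 * Fintype.card X - (U.image p).card) := by
    have hle : (U.image p).card ≤ Fintype.card X := Finset.card_le_univ _
    rw [Fintype.card_prod, Fintype.card_fun, Fintype.card_fun, Fintype.card_bool,
      Fintype.card_subtype_compl, Fintype.card_coe, ← pow_add]
    congr 1
    omega
  rw [← h1, ← Finset.card_univ]
  refine Finset.card_le_card_of_injOn (fun T => (fun x => T.1 x.1, T.2))
    (fun _ _ => Finset.mem_coe.2 (Finset.mem_univ _)) ?_
  rintro ⟨T1, T2⟩ hT ⟨T1', T2'⟩ hT' heq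
  rw [Finset.mem_coe, Finset.mem_filter] at hT hT'
  simp only [Prod.mk.injEq] at heq
  obtain ⟨he1, rfl⟩ := heq
  have : T1 = T1' := by
    funext x
    by_cases hx : x ∈ U.image p
    · obtain ⟨z, hz, rfl⟩ := Finset.mem_image.1 hx
      have h2 := hR _ hT.2 z hz
      have h3 := hR _ hT'.2 z hz
      simp only at h2 h3
      rw [← h3] at h2
      cases h4 : T1 (p z) <;> cases h5 : T1' (p z) <;> cases h6 : T2 (q z) <;>
        simp [h4, h5, h6] at h2 ⊢
    · exact congrFun he1 ⟨x, hx⟩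
  rw [this]

section

variable {m d l : ℕ}

/-- The first `m` coordinates. -/
def px (z : Fin (m + d + l) → Bool) (i : Fin m) : Bool := z (Fin.castAdd l (Fin.castAdd d i))

/-- The next `d` coordinates. -/
def pw (z : Fin (m + d + l) → Bool) (j : Fin d) : Bool := z (Fin.castAdd l (Fin.natAdd m j))

/-- The remaining coordinates. -/
def pr (z : Fin (m + d + l) → Bool) (k : Fin l) : Bool := z (Fin.natAdd (m + d) k)

theorem pxwr_injective : Function.Injective
    (fun z : Fin (m + d + l) → Bool => ((pw z, px z), pr z)) := by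
  intro z z' h
  simp only [Prod.mk.injEq] at h
  obtain ⟨⟨h1, h2⟩, h3⟩ := h
  funext i
  refine Fin.addCases (fun i => ?_) (fun k => congrFun h3 k) i
  exact Fin.addCases (fun i => congrFun h2 i) (fun j => congrFun h1 j) i

/-- The shifted point. -/
def py (e : (Fin d → Bool) → Fin m → Bool) (z : Fin (m + d + l) → Bool) (i : Fin m) : Bool :=
  px z i ^^ e (pw z) i

/-- The functions of the family. -/
def fam (e : (Fin d → Bool) → Fin m → Bool)
    (T : ((Fin m → Bool) → Bool) × ((Fin m → Bool) → Bool)) (z : Fin (m + d + l) → Bool) : Bool :=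
  T.1 (px z) ^^ T.2 (py e z)

/-- Large sets of positions have a large projection. -/
theorem large_image {e : (Fin d → Bool) → Fin m → Bool} {τ : ℕ}
    (he : Biased e (1 / 2 ^ (τ + 2))) (hτ : 2 * τ + 4 ≤ m) (U : Finset (Fin (m + d + l) → Bool))
    (hU : 2 ^ (m + d + l - 2 * τ - 3) < U.card) :
    2 ^ (m - τ - 2) ≤ (U.image px).card ∨ 2 ^ (m - τ - 2) ≤ (U.image (py e)).card := by
  classical
  by_contra hcon
  rw [not_or, not_le, not_le] at hcon
  obtain ⟨h1, h2⟩ := hcon
  have h3 : (2 : ℝ) ^ m = 2 ^ (m - τ - 2) * 2 ^ (τ + 2) := by rw [← pow_add]; congr 1; omega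
  have hpairs := pairs_le (d := d) (by positivity) he (U.image px) (U.image (py e))
    (B := 2 ^ (m - τ - 2)) (by exact_mod_cast h1.le) (by exact_mod_cast h2.le)
  set N := (univ.filter fun p : (Fin d → Bool) × (Fin m → Bool) =>
      p.2 ∈ U.image px ∧ (fun i => p.2 i ^^ e p.1 i) ∈ U.image (py e)).card with hN
  have h4 : (2 : ℝ) ^ d * ((2 ^ (m - τ - 2)) ^ 2 + 1 / 2 ^ (τ + 2) * 2 ^ m * 2 ^ (m - τ - 2)) =
      2 ^ m * 2 ^ (m + d - 2 * τ - 3) := by
    have e1 : (1 : ℝ) / 2 ^ (τ + 2) * 2 ^ m = 2 ^ (m - τ - 2) := by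
      rw [h3]
      field_simp
    rw [e1]
    have e2 : ((2 : ℝ) ^ (m - τ - 2)) ^ 2 + 2 ^ (m - τ - 2) * 2 ^ (m - τ - 2) =
        2 ^ (2 * (m - τ - 2) + 1) := by
      generalize m - τ - 2 = k
      rw [pow_succ (2 : ℝ) (2 * k), two_mul k, pow_add]
      ring
    rw [e2, ← pow_add, ← pow_add]
    congr 1
    omega
  rw [h4] at hpairs
  have h5 : (N : ℝ) ≤ 2 ^ (m + d - 2 * τ - 3) := le_of_mul_le_mul_left hpairs (by positivity)
  have h6 : N ≤ 2 ^ (m + d - 2 * τ - 3) := by exact_mod_cast h5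
  have h7 : U.card ≤ N * 2 ^ l := by
    have : Fintype.card (Fin l → Bool) = 2 ^ l := by simp
    rw [hN, ← this, ← Finset.card_univ, ← Finset.card_product]
    refine Finset.card_le_card_of_injOn (fun z => ((pw z, px z), pr z)) ?_
      (fun z _ z' _ h => pxwr_injective h)
    intro z hz
    rw [Finset.mem_coe, Finset.mem_product]
    refine ⟨?_, Finset.mem_univ _⟩
    rw [Finset.mem_filter]
    exact ⟨Finset.mem_univ _, Finset.mem_image_of_mem _ hz,
      Finset.mem_image_of_mem (py e) hz⟩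
  have h8 : N * 2 ^ l ≤ 2 ^ (m + d + l - 2 * τ - 3) := by
    calc N * 2 ^ l ≤ 2 ^ (m + d - 2 * τ - 3) * 2 ^ l := Nat.mul_le_mul_right _ h6
      _ = 2 ^ (m + d + l - 2 * τ - 3) := by rw [← pow_add]; congr 1; omega
  omega

/-- Few functions of the family have given values on a large set of positions. -/
theorem fam_card {e : (Fin d → Bool) → Fin m → Bool} {τ : ℕ}
    (he : Biased e (1 / 2 ^ (τ + 2))) (hτ : 2 * τ + 4 ≤ m) (U : Finset (Fin (m + d + l) → Bool))
    (π : (Fin (m + d + l) → Bool) → Bool) (hU : 2 ^ (m + d + l - 2 * τ - 3) < U.card)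
    (R : ((Fin m → Bool) → Bool) × ((Fin m → Bool) → Bool) → Prop) [DecidablePred R]
    (hR : ∀ T, R T → ∀ z ∈ U, fam e T z = π z) :
    (univ.filter R).card ≤ 2 ^ (2 * 2 ^ m - 2 ^ (m - τ - 2)) := by
  classical
  have hX : Fintype.card (Fin m → Bool) = 2 ^ m := by simp
  rcases large_image he hτ U hU with h | h
  · have h0 := prescribed_card px (py e) U π R hR
    rw [hX] at h0
    exact h0.trans (Nat.pow_le_pow_right (by norm_num) (by omega))
  · have h1 := prescribed_card (py e) px U π (fun T => R (T.2, T.1)) (fun T hT z hz => by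
      rw [← hR _ hT z hz]
      unfold fam
      rw [Bool.xor_comm])
    rw [hX] at h1
    refine le_trans ?_ (h1.trans (Nat.pow_le_pow_right (by norm_num)
      (show 2 * 2 ^ m - (U.image (py e)).card ≤ 2 * 2 ^ m - 2 ^ (m - τ - 2) by omega)))
    refine Finset.card_le_card_of_injOn (fun T => (T.2, T.1)) ?_
      (fun T _ T' _ h => by
        simp only [Prod.mk.injEq] at h
        exact Prod.ext h.2 h.1)
    intro T hT
    rw [Finset.mem_coe, Finset.mem_filter] at hT
    rw [Finset.mem_coe, Finset.mem_filter]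
    exact ⟨Finset.mem_univ _, hT.2⟩

end

open Classical in
/-- **The lower bound.** If a decomposable circuit on the truth tables of functions of `n` variables
accepts the family and not too many other tables, then it is large. -/
theorem lower_bound {n m d τ K S : ℕ} {e : (Fin d → Bool) → Fin m → Bool}
    (he : Biased e (1 / 2 ^ (τ + 2))) (hτ : 3 * τ + 4 ≤ m) (hτd : τ ≤ d) {l : ℕ}
    (hn : n = m + d + l) (C : Circ (Fin n → Bool) Bool S) (r : Fin S)
    (hleaf : C.LeafLE (2 ^ (n - 2 * τ - 2)))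
    (hacc : (univ.filter fun a => C.Acc a r).card ≤ 2 ^ K) (hK : K ≤ 2 ^ (m + τ - 2))
    (hF : ∀ T : ((Fin m → Bool) → Bool) × ((Fin m → Bool) → Bool),
      C.Acc (fun z => fam (l := l) e T (fun i => z (Fin.cast hn.symm i))) r) :
    2 ^ 2 ^ (m - 3 * τ - 4) ≤ S := by
  subst hn
  have hF' : ∀ T : ((Fin m → Bool) → Bool) × ((Fin m → Bool) → Bool),
      C.Acc (fam (l := l) e T) r := hF
  have hm1 : 4 ≤ m := by omega
  have hw2 : 2 * 2 ^ (m + d + l - 2 * τ - 3) = 2 ^ (m + d + l - 2 * τ - 2) := by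
    rw [← pow_succ']
    congr 1
    omega
  have hwt : 2 * 2 ^ (m + d + l - 2 * τ - 3) * 2 ^ (2 * τ + 1) = 2 ^ (m + d + l - 1) := by
    rw [hw2, ← pow_add]
    congr 1
    omega
  have hN : 2 ^ (m + d + l) = 2 * 2 ^ (m + d + l - 1) := by
    rw [← pow_succ']
    congr 1
    omega
  have hΛ : Fintype.card (Fin (m + d + l) → Bool) = 2 ^ (m + d + l) := by simp
  have haccd : accd false C r ∅ = univ.filter fun a => C.Acc a r := by
    unfold accd
    ext a
    simp
  have hacc' : (accd false C r ∅).card ≤ 2 ^ K := by rw [haccd]; exact hacc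
  have hKN : 2 ^ (m + τ - 2) < 2 ^ (m + d + l - 1) := Nat.pow_lt_pow_right (by norm_num) (by omega)
  have key := counting (t := 2 ^ (2 * τ + 1)) (w := 2 ^ (m + d + l - 2 * τ - 3))
    (Y := 2 ^ K) (M := 2 ^ (2 * 2 ^ m - 2 ^ (m - τ - 2))) false C r Nat.one_le_two_pow
    Nat.one_le_two_pow (by rw [hw2]; exact hleaf) hacc' ?_
    (fam (l := l) e) hF' (fun U π hU => by
      exact fam_card he (by omega) U π hU _ (fun T hT => hT))
  · -- the final computation
    have hιc : Fintype.card (((Fin m → Bool) → Bool) × ((Fin m → Bool) → Bool)) =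
        2 ^ (2 * 2 ^ m) := by
      simp only [Fintype.card_prod, Fintype.card_fun, Fintype.card_bool, Fintype.card_fin]
      rw [← pow_add]
      congr 1
      ring
    rw [hιc] at key
    set t := 2 ^ (2 * τ + 1) with ht
    by_contra hS
    rw [not_le] at hS
    have hB : 2 ^ (m - τ - 2) ≤ 2 ^ m := Nat.pow_le_pow_right (by norm_num) (by omega)
    have h1 : 2 ^ (2 ^ (m - τ - 2) * t) * (2 ^ (2 * 2 ^ m - 2 ^ (m - τ - 2))) ^ t ≤
        (S ^ t) ^ t * 2 ^ K * (2 ^ (2 * 2 ^ m - 2 ^ (m - τ - 2))) ^ t := by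
      calc 2 ^ (2 ^ (m - τ - 2) * t) * (2 ^ (2 * 2 ^ m - 2 ^ (m - τ - 2))) ^ t
          = (2 ^ (2 * 2 ^ m)) ^ t := by
            rw [pow_mul, ← mul_pow, ← pow_add]
            congr 2
            omega
        _ ≤ _ := key
        _ = _ := by ring
    have h2 : 2 ^ (2 ^ (m - τ - 2) * t) ≤ (S ^ t) ^ t * 2 ^ K :=
      Nat.le_of_mul_le_mul_right h1 (by positivity)
    have h3 : 2 ^ (m - τ - 2) * t = 2 ^ (m + τ - 2) + 2 ^ (m + τ - 2) := by
      rw [ht, ← pow_add, ← two_mul, ← pow_succ']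
      congr 1
      omega
    have ht0 : t * t ≠ 0 := by
      rw [ht]
      positivity
    have h4 : (S ^ t) ^ t < 2 ^ 2 ^ (m + τ - 2) := by
      calc (S ^ t) ^ t = S ^ (t * t) := by rw [← pow_mul]
        _ < (2 ^ 2 ^ (m - 3 * τ - 4)) ^ (t * t) := Nat.pow_lt_pow_left hS ht0
        _ = 2 ^ 2 ^ (m + τ - 2) := by
            rw [← pow_mul, ht, ← pow_add, ← pow_add]
            congr 2
            omega
    have h5 : (S ^ t) ^ t * 2 ^ K < 2 ^ 2 ^ (m + τ - 2) * 2 ^ 2 ^ (m + τ - 2) := by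
      calc (S ^ t) ^ t * 2 ^ K < 2 ^ 2 ^ (m + τ - 2) * 2 ^ K :=
            Nat.mul_lt_mul_of_pos_right h4 (by positivity)
        _ ≤ _ := Nat.mul_le_mul_left _ (Nat.pow_le_pow_right (by norm_num) hK)
    rw [← pow_add, ← h3] at h5
    omega
  · -- certificates are large
    intro a L hL
    have h1 := (cert_card false hL).trans hacc'
    rw [Fintype.card_bool, hΛ] at h1
    have h2 := (Nat.pow_le_pow_iff_right (by norm_num : 1 < 2)).1 h1
    rw [hwt]
    omega

end Pool.Agent.H561R2.RO
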