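import Pool.Agent.H532R2.MC.Defs
import Pool.Agent.H561R2.RO.Defs

/-!
# Partial truth tables
-/

namespace Pool.Agent.H561R2.RO

open Pool.Agent.H532R2.MC

/-- The yes-instances of Partial MCSP: some De Morgan circuit on `n` variables with at most `s` AND
and OR gates agrees with the partial truth table `T` (`none` is the symbol `*`). -/
def PartialMCSP (n : ℕ) (T : (Fin n → Bool) → Option Bool) (s : ℕ) : Prop :=
  ∃ f : BF n, SizeLE n f s ∧ ∀ x b, T x = some b → f x = b

end Pool.Agent.H561R2.RO
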